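import Mathlib

/-!
# Intervals with a given number of elements of a set and few exceptions
-/

set_option autoImplicit false

open Finset

namespace Pool.Agent.K7.H45.LL

theorem cut_aux (c w : ℕ → ℕ) (hc : ∀ i, c i ≤ 1) (b : ℕ) (hb : 1 ≤ b) (L : ℕ) :
    b ≤ ∑ i ∈ range L, c i → ∃ u v, u ≤ v ∧ v ≤ L ∧ ∑ i ∈ Ico u v, c i = b ∧
      ((∑ i ∈ range L, c i) / b) * ∑ i ∈ Ico u v, w i ≤ ∑ i ∈ range L, w i := by
  classical
  induction L using Nat.strong_induction_on with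
  | _ L ih =>
  intro hL
  -- the last interval
  obtain ⟨u, huL, hu⟩ : ∃ u, u < L ∧ ∑ i ∈ Ico u L, c i = b := by
    set P : ℕ → Prop := fun u => b ≤ ∑ i ∈ Ico u L, c i with hP
    have hP0 : P 0 := by
      rw [hP]
      simp only
      rw [← range_eq_Ico]
      exact hL
    have h1 : P (Nat.findGreatest P L) := Nat.findGreatest_spec (P := P) (Nat.zero_le L) hP0
    have h2 : Nat.findGreatest P L ≤ L := Nat.findGreatest_le L
    set u := Nat.findGreatest P L with hu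
    have h3 : u < L := by
      rcases h2.lt_or_eq with h | h
      · exact h
      · exfalso
        rw [h] at h1
        simp only [hP, Ico_self, sum_empty] at h1
        omega
    refine ⟨u, h3, ?_⟩
    have h4 : ¬ P (u + 1) := Nat.findGreatest_is_greatest (P := P) (n := L) (k := u + 1)
      (by omega) (by omega)
    have h5 : ∑ i ∈ Ico u L, c i = c u + ∑ i ∈ Ico (u + 1) L, c i :=
      sum_eq_sum_Ico_succ_bot h3 _
    have h6 := hc u
    simp only [hP, not_le] at h1 h4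
    omega
  have e1 : ∑ i ∈ range L, c i = ∑ i ∈ range u, c i + ∑ i ∈ Ico u L, c i :=
    (sum_range_add_sum_Ico _ huL.le).symm
  have e2 : ∑ i ∈ range L, w i = ∑ i ∈ range u, w i + ∑ i ∈ Ico u L, w i :=
    (sum_range_add_sum_Ico _ huL.le).symm
  obtain ⟨p, hp⟩ : ∃ p, p = (∑ i ∈ range L, c i) / b := ⟨_, rfl⟩
  have hp1 : 1 ≤ p := by
    rw [hp]
    exact (Nat.one_le_div_iff (by omega)).2 hL
  rw [← hp]
  by_cases hgood : p * ∑ i ∈ Ico u L, w i ≤ ∑ i ∈ range L, w i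
  · exact ⟨u, L, huL.le, le_rfl, hu, hgood⟩
  push Not at hgood
  have hdiv : (∑ i ∈ range u, c i) / b = p - 1 := by
    rw [hp, e1, hu, Nat.add_div_right _ (by omega)]
    rfl
  have hp2 : 2 ≤ p := by
    by_contra hlt
    have : p = 1 := by omega
    rw [this, one_mul, e2] at hgood
    omega
  have hub : b ≤ ∑ i ∈ range u, c i := by
    have h7 : 1 ≤ (∑ i ∈ range u, c i) / b := by omega
    exact (Nat.one_le_div_iff (by omega)).1 h7
  obtain ⟨u', v', h1, h2, h3, h4⟩ := ih u huL hub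
  refine ⟨u', v', h1, by omega, h3, ?_⟩
  rw [hdiv] at h4
  obtain ⟨p', rfl⟩ : ∃ p', p = p' + 1 := ⟨p - 1, by omega⟩
  simp only [Nat.add_sub_cancel] at h4
  rw [e2] at hgood ⊢
  have h5 : p' * ∑ i ∈ Ico u' v', w i < p' * ∑ i ∈ Ico u L, w i := by
    rw [add_mul, one_mul] at hgood
    omega
  have h6 : ∑ i ∈ Ico u' v', w i < ∑ i ∈ Ico u L, w i := Nat.lt_of_mul_lt_mul_left h5
  rw [add_mul, one_mul]
  omega

/-- the places `u, ..., v - 1` -/
def Ivl (m u v : ℕ) : Finset (Fin m) := univ.filter (fun i => u ≤ (i : ℕ) ∧ (i : ℕ) < v)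

open Classical in
theorem card_ivl {m : ℕ} (S : Finset (Fin m)) (u v : ℕ) :
    ∑ i ∈ Ico u v, (if ∃ h : i < m, (⟨i, h⟩ : Fin m) ∈ S then 1 else 0) = (S ∩ Ivl m u v).card := by
  rw [← card_filter]
  have h : (Ico u v).filter (fun i => ∃ h : i < m, (⟨i, h⟩ : Fin m) ∈ S) =
      (S ∩ Ivl m u v).map Fin.valEmbedding := by
    ext i
    simp only [mem_filter, mem_Ico, mem_map, mem_inter, Ivl, mem_univ, true_and,
      Fin.valEmbedding_apply]
    constructor
    · rintro ⟨⟨h1, h2⟩, h3, h4⟩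
      exact ⟨⟨i, h3⟩, ⟨h4, h1, h2⟩, rfl⟩
    · rintro ⟨j, ⟨h1, h2, h3⟩, rfl⟩
      exact ⟨⟨h2, h3⟩, j.2, h1⟩
  rw [h, card_map]

theorem cut {m : ℕ} (C F1 F2 : Finset (Fin m)) (b : ℕ) (hb : 1 ≤ b) (hbC : b ≤ C.card) :
    ∃ u v, u ≤ m ∧ v ≤ m ∧ (C ∩ Ivl m u v).card = b ∧
      (C.card / b) * ((F1 ∩ Ivl m u v).card + (F2 ∩ Ivl m u v).card) ≤ F1.card + F2.card := by
  classical
  have hfull : ∀ S : Finset (Fin m),
      ∑ i ∈ range m, (if ∃ h : i < m, (⟨i, h⟩ : Fin m) ∈ S then 1 else 0) = S.card := by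
    intro S
    have := card_ivl S 0 m
    rw [range_eq_Ico, this]
    congr 1
    ext i
    simp [Ivl]
  obtain ⟨u, v, h1, h2, h3, h4⟩ := cut_aux
    (fun i => if ∃ h : i < m, (⟨i, h⟩ : Fin m) ∈ C then 1 else 0)
    (fun i => (if ∃ h : i < m, (⟨i, h⟩ : Fin m) ∈ F1 then 1 else 0) +
      (if ∃ h : i < m, (⟨i, h⟩ : Fin m) ∈ F2 then 1 else 0))
    (fun i => by split_ifs <;> simp) b hb m (by rw [hfull]; exact hbC)
  rw [hfull, sum_add_distrib, sum_add_distrib, hfull, hfull, card_ivl,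
    card_ivl] at h4
  rw [card_ivl] at h3
  exact ⟨u, v, h1.trans h2, h2, h3, h4⟩

end Pool.Agent.K7.H45.LL
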