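import Pool.Agent.H554R2.Lin.Defs

/-!
# Deterministic programs of linear length: two words over a finite alphabet

A version of the rectangle theorem of `H554R2.Lin` (Ajtai; Beame, Saks, Sun, Vee) for inputs which
consist of two words of length `m` over a finite alphabet `D`: one foot of the rectangle lies in
the first word, the other one in the second word.
-/

set_option autoImplicit false

open Finset

namespace Pool.Agent.K7.H45.LL

open Pool.Agent.H554R2.Lin (core hat bar cnt)

/-- the places of two words of length `m` -/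
abbrev Pl (m : ℕ) := Fin m ⊕ Fin m

/-- A set `K` of inputs whose computations pass through the same `r + 1` nodes at the times
`0, s, 2 s, ..., r s`; `Rd j x` is the set of the places read between the times `j s` and
`(j + 1) s` on the input `x`. -/
structure Blk (D : Type) (m r s : ℕ) where
  /-- the set of inputs -/
  K : Finset (Pl m → D)
  /-- the places read in the `j`-th block -/
  Rd : Fin r → (Pl m → D) → Finset (Pl m)
  size : ∀ x ∈ K, ∀ j, (Rd j x).card ≤ s
  det : ∀ x ∈ K, ∀ y ∈ K, ∀ j, (∀ i ∈ Rd j x, i ∈ Rd j y → x i = y i) → Rd j x = Rd j y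
  splice : ∀ X : Fin r → Pl m → D, (∀ j, X j ∈ K) → ∀ z, (∀ j, ∀ i ∈ Rd j (X j), z i = X j i) →
    z ∈ K ∧ ∀ j, Rd j z = Rd j (X j)

/-- Rectangles in `K`, with feet `A`, `B` in the first and in the second word and with the spine
`(x0, y0)`; the two arms belong to `V`. -/
structure Rect {D : Type} {m : ℕ} (K V : Finset (Pl m → D)) (q a b g : ℕ) where
  /-- first foot -/
  A : Finset (Fin m)
  /-- second foot -/
  B : Finset (Fin m)
  /-- first word of the spine -/
  x0 : Fin m → D
  /-- second word of the spine -/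
  y0 : Fin m → D
  /-- first side -/
  X : Finset (Fin m → D)
  /-- second side -/
  Y : Finset (Fin m → D)
  cA : A.card = a
  cB : B.card = b
  hX : ∀ x ∈ X, ∀ v, v ∉ A → x v = x0 v
  hY : ∀ y ∈ Y, ∀ v, v ∉ B → y v = y0 v
  nX : q ^ a ≤ 2 ^ g * X.card
  nY : q ^ b ≤ 2 ^ g * Y.card
  mX : ∀ x ∈ X, Sum.elim x y0 ∈ V
  mY : ∀ y ∈ Y, Sum.elim x0 y ∈ V
  mem : ∀ x ∈ X, ∀ y ∈ Y, Sum.elim x y ∈ K

/-- the places of one of the words -/
def inj {m : ℕ} (e : Bool) (v : Fin m) : Pl m := if e then Sum.inr v else Sum.inl v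

/-- the kind of the blocks which belong to one of the words -/
def kd (e : Bool) : Fin 3 := if e then 1 else 0

section

variable {D : Type} {m r s : ℕ}

/-- the blocks which read the place `v` of the word `e` -/
def Blk.S (B : Blk D m r s) (e : Bool) (x : Pl m → D) : Fin m → Finset (Fin r) :=
  fun v => univ.filter (fun j => inj e v ∈ B.Rd j x)

variable (B : Blk D m r s) (T : Fin r → Fin 3) (c : Bool → ℕ) (I : Bool → Finset (Fin m))

/-- the core of the word `e` -/
def co (e : Bool) (x : Pl m → D) : Finset (Fin m) := core (B.S e x) T (kd e) (c e) ∩ I e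

/-- the places of the word `e` which are read in blocks of the kind `e` only -/
def ha (e : Bool) (x : Pl m → D) : Finset (Fin m) := hat (B.S e x) T (kd e) ∩ I e

/-- the places of the word `e` which are read in `c` blocks of the kind `e` and in no block of the
kind `2` -/
def ba (e : Bool) (x : Pl m → D) : Finset (Fin m) := bar (B.S e x) T (kd e) (c e) ∩ I e

/-- `z` agrees with `x` off the places `A` of the word `e` -/
def Off (e : Bool) (A : Finset (Fin m)) (z x : Pl m → D) : Prop :=
  (∀ v, z (inj (!e) v) = x (inj (!e) v)) ∧ ∀ v, v ∉ A → z (inj e v) = x (inj e v)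

open Classical in
/-- the class of `x` in the direction `e` -/
noncomputable def fib (K' : Finset (Pl m → D)) (e : Bool) (x : Pl m → D) : Finset (Pl m → D) :=
  K'.filter (fun y => co B T c I false y = co B T c I false x ∧
    co B T c I true y = co B T c I true x ∧ Off e (co B T c I e x) y x)

/-- the sizes are as they should be -/
def Typ (a b d : ℕ) (x : Pl m → D) : Prop :=
  (co B T c I false x).card = a ∧ (co B T c I true x).card = b ∧
  ∀ e, (ha B T I e x \ co B T c I e x).card ≤ d ∧ (ba B T c I e x \ co B T c I e x).card ≤ d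

end

theorem Off.refl {D : Type} {m : ℕ} (e : Bool) (A : Finset (Fin m)) (x : Pl m → D) :
    Off e A x x := ⟨fun _ => rfl, fun _ _ => rfl⟩

theorem Off.symm {D : Type} {m : ℕ} {e : Bool} {A : Finset (Fin m)} {z x : Pl m → D}
    (h : Off e A z x) : Off e A x z := ⟨fun v => (h.1 v).symm, fun v hv => (h.2 v hv).symm⟩

theorem Off.trans {D : Type} {m : ℕ} {e : Bool} {A : Finset (Fin m)} {z x y : Pl m → D}
    (h : Off e A z x) (h' : Off e A x y) : Off e A z y :=
  ⟨fun v => (h.1 v).trans (h'.1 v), fun v hv => (h.2 v hv).trans (h'.2 v hv)⟩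

theorem kd_ne (e : Bool) : kd (!e) ≠ kd e := by cases e <;> decide

theorem kd_ne2 (e : Bool) : kd e ≠ 2 := by cases e <;> decide

theorem inj_cases {m : ℕ} (e : Bool) (p : Pl m) : (∃ v, p = inj e v) ∨ ∃ v, p = inj (!e) v := by
  rcases p with v | v <;> cases e
  · exact Or.inl ⟨v, rfl⟩
  · exact Or.inr ⟨v, rfl⟩
  · exact Or.inr ⟨v, rfl⟩
  · exact Or.inl ⟨v, rfl⟩

theorem inj_inj {m : ℕ} (e : Bool) : Function.Injective (inj (m := m) e) := by
  intro u v h
  cases e
  · exact Sum.inl_injective h
  · exact Sum.inr_injective h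

theorem inj_ne {m : ℕ} (e : Bool) (u v : Fin m) : inj e u ≠ inj (!e) v := by
  cases e <;> simp [inj]

end Pool.Agent.K7.H45.LL
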