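import Pool.Agent.K7.H45.LL.Defs
import Pool.Agent.H554R2.Lin.Fib

set_option autoImplicit false

open Finset

namespace Pool.Agent.K7.H45.LL

open Pool.Agent.H554R2.Lin (core hat bar cnt V5_few)

/-- points which agree with `x` off a set -/
theorem card_agree {ι D : Type} [Fintype ι] [DecidableEq ι] [Fintype D] [DecidableEq D]
    (P : Finset ι) (x : ι → D) [DecidablePred fun z : ι → D => ∀ p, p ∉ P → z p = x p] :
    (univ.filter fun z : ι → D => ∀ p, p ∉ P → z p = x p).card = Fintype.card D ^ P.card := by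
  have h : (univ.filter fun z : ι → D => ∀ p, p ∉ P → z p = x p) =
      Fintype.piFinset (fun v => if v ∈ P then (univ : Finset D) else {x v}) := by
    ext z
    rw [Finset.mem_filter, Fintype.mem_piFinset]
    constructor
    · rintro ⟨_, h⟩ v
      by_cases hv : v ∈ P
      · rw [if_pos hv]; exact Finset.mem_univ _
      · rw [if_neg hv, Finset.mem_singleton]; exact h v hv
    · intro h
      refine ⟨Finset.mem_univ _, fun v hv => ?_⟩
      have := h v
      rw [if_neg hv, Finset.mem_singleton] at this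
      exact this
  rw [h, Fintype.card_piFinset]
  have h2 : ∀ v : ι, (if v ∈ P then (univ : Finset D) else {x v}).card =
      if v ∈ P then Fintype.card D else 1 := by
    intro v
    by_cases hv : v ∈ P
    · rw [if_pos hv, if_pos hv]; rfl
    · rw [if_neg hv, if_neg hv]; rfl
  rw [Finset.prod_congr rfl fun v _ => h2 v, Finset.prod_ite]
  simp

open Classical in
theorem card_off {D : Type} [Fintype D] {m : ℕ} (e : Bool) (A : Finset (Fin m)) (x : Pl m → D) :
    (univ.filter fun z : Pl m → D => Off e A z x).card = Fintype.card D ^ A.card := by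
  have h := card_agree (A.image (inj e)) x
  rw [card_image_of_injective _ (inj_inj e)] at h
  rw [← h]
  congr 1
  ext z
  simp only [mem_filter, mem_univ, true_and]
  constructor
  · rintro ⟨h1, h2⟩ p hp
    rcases inj_cases e p with ⟨v, rfl⟩ | ⟨v, rfl⟩
    · exact h2 v fun hv => hp (mem_image_of_mem _ hv)
    · exact h1 v
  · intro h1
    refine ⟨fun v => h1 _ fun hv => ?_, fun v hv => h1 _ fun hv' => hv ?_⟩
    · obtain ⟨w, _, hw⟩ := mem_image.1 hv
      exact inj_ne e w v hw
    · obtain ⟨w, hw, hw'⟩ := mem_image.1 hv'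
      rw [← inj_inj e hw']
      exact hw

section
variable {D : Type} {m r s : ℕ} (B : Blk D m r s) (T : Fin r → Fin 3)
  (c : Bool → ℕ) (I : Bool → Finset (Fin m))

theorem mem_S (e : Bool) (x : Pl m → D) (v : Fin m) (j : Fin r) :
    j ∈ B.S e x v ↔ inj e v ∈ B.Rd j x := by
  unfold Blk.S
  rw [Finset.mem_filter]
  exact ⟨fun h => h.2, fun h => ⟨Finset.mem_univ _, h⟩⟩

theorem mem_co (e : Bool) (x : Pl m → D) (v : Fin m) : v ∈ co B T c I e x ↔
    ((B.S e x v).card = c e ∧ ∀ j ∈ B.S e x v, T j = kd e) ∧ v ∈ I e := by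
  simp [co, core]

theorem mem_ha (e : Bool) (x : Pl m → D) (v : Fin m) : v ∈ ha B T I e x ↔
    (∀ j ∈ B.S e x v, T j = kd e) ∧ v ∈ I e := by
  simp [ha, hat]

theorem mem_ba (e : Bool) (x : Pl m → D) (v : Fin m) : v ∈ ba B T c I e x ↔
    (((B.S e x v).filter (fun j => T j = kd e)).card = c e ∧ ∀ j ∈ B.S e x v, T j ≠ 2) ∧
      v ∈ I e := by
  simp [ba, bar]

/-- the core is not read by blocks of other kinds -/
theorem not_core (e : Bool) (x : Pl m → D) (v : Fin m) (j : Fin r) (hj : T j ≠ kd e)
    (h : inj e v ∈ B.Rd j x) : v ∉ co B T c I e x := by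
  intro hv
  rw [mem_co] at hv
  exact hj (hv.1.2 j ((mem_S B e x v j).2 h))

/-- blocks of other kinds are determined by the values off the core -/
theorem det_off (e : Bool) {x y z : Pl m → D} (hx : x ∈ B.K) (hy : y ∈ B.K)
    (hxz : Off e (co B T c I e x) z x) (hyz : Off e (co B T c I e y) z y) {j : Fin r}
    (hj : T j ≠ kd e) : B.Rd j x = B.Rd j y := by
  apply B.det x hx y hy j
  intro p hpx hpy
  rcases inj_cases e p with ⟨v, rfl⟩ | ⟨v, rfl⟩
  · rw [← hxz.2 v (not_core B T c I e x v j hj hpx), ← hyz.2 v (not_core B T c I e y v j hj hpy)]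
  · rw [← hxz.1 v, ← hyz.1 v]

theorem ha_eq (e : Bool) {x y : Pl m → D} (h : ∀ j, T j ≠ kd e → B.Rd j x = B.Rd j y) :
    ha B T I e x = ha B T I e y := by
  have key : ∀ {x y : Pl m → D}, (∀ j, T j ≠ kd e → B.Rd j x = B.Rd j y) →
      ha B T I e x ⊆ ha B T I e y := by
    intro x y h v hv
    rw [mem_ha] at hv ⊢
    refine ⟨fun j hj => ?_, hv.2⟩
    by_contra hne
    rw [mem_S, ← h j hne] at hj
    exact hne (hv.1 j ((mem_S B e x v j).2 hj))
  exact Finset.Subset.antisymm (key h) (key fun j hj => (h j hj).symm)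

theorem ba_eq (e : Bool) {x y : Pl m → D} (h : ∀ j, T j ≠ kd e → B.Rd j x = B.Rd j y) :
    ba B T c I (!e) x = ba B T c I (!e) y := by
  have key : ∀ {x y : Pl m → D}, (∀ j, T j ≠ kd e → B.Rd j x = B.Rd j y) →
      ba B T c I (!e) x ⊆ ba B T c I (!e) y := by
    intro x y h v hv
    rw [mem_ba] at hv ⊢
    obtain ⟨⟨h1, h2⟩, h3⟩ := hv
    refine ⟨⟨?_, ?_⟩, h3⟩
    · rw [← h1]
      congr 1
      ext j
      rw [Finset.mem_filter, Finset.mem_filter, mem_S, mem_S]
      constructor
      · rintro ⟨h3, h4⟩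
        rw [h j (by rw [h4]; exact kd_ne e)]
        exact ⟨h3, h4⟩
      · rintro ⟨h3, h4⟩
        rw [← h j (by rw [h4]; exact kd_ne e)]
        exact ⟨h3, h4⟩
    · intro j hj h3
      rw [mem_S, ← h j (by rw [h3]; exact (kd_ne2 e).symm)] at hj
      exact h2 j ((mem_S B (!e) x v j).2 hj) h3
  exact Finset.Subset.antisymm (key h) (key fun j hj => (h j hj).symm)

theorem co_ha (e : Bool) (x : Pl m → D) : co B T c I e x ⊆ ha B T I e x := by
  intro v hv
  rw [mem_co] at hv
  rw [mem_ha]
  exact ⟨hv.1.2, hv.2⟩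

theorem co_ba (e : Bool) (x : Pl m → D) : co B T c I e x ⊆ ba B T c I e x := by
  intro v hv
  rw [mem_co] at hv
  rw [mem_ba]
  obtain ⟨⟨h2, h3⟩, h4⟩ := hv
  refine ⟨⟨?_, fun j hj h4 => ?_⟩, h4⟩
  · rw [Finset.filter_true_of_mem h3, h2]
  · rw [h3 j hj] at h4
    exact kd_ne2 e h4

open Classical in
theorem gen [Fintype D] [Nonempty D] {a b d g : ℕ} (K' : Finset (Pl m → D)) (hK : K' ⊆ B.K)
    (e : Bool)
    (h1 : ∀ x ∈ K', (co B T c I e x).card = a)
    (h2 : ∀ x ∈ K', (co B T c I (!e) x).card = b)
    (h3 : ∀ x ∈ K', (ha B T I e x \ co B T c I e x).card ≤ d)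
    (h4 : ∀ x ∈ K', (ba B T c I (!e) x \ co B T c I (!e) x).card ≤ d) :
    (K'.filter (fun x => 2 ^ g * (fib B T c I K' e x).card < Fintype.card D ^ a)).card * 2 ^ g ≤
      Fintype.card D ^ (m + m) * ((∑ i ∈ range (d + 1), (a + d).choose i) *
        ∑ i ∈ range (d + 1), (b + d).choose i) := by
  obtain ⟨q, hq⟩ : ∃ q, q = Fintype.card D := ⟨_, rfl⟩
  set small := K'.filter (fun x => 2 ^ g * (fib B T c I K' e x).card < Fintype.card D ^ a)
    with hsmall
  set cl := small.image (fib B T c I K' e) with hcl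
  -- representatives
  have hrep : ∀ C : Finset (Pl m → D), ∃ x : Pl m → D, C ∈ cl → x ∈ small ∧
      fib B T c I K' e x = C := by
    intro C
    by_cases hC : C ∈ cl
    · obtain ⟨x, hx, hxC⟩ := Finset.mem_image.1 hC
      exact ⟨x, fun _ => ⟨hx, hxC⟩⟩
    · exact ⟨fun _ => Classical.arbitrary D, fun h => absurd h hC⟩
  choose rep hrep using hrep
  have hrepK : ∀ C ∈ cl, rep C ∈ K' := fun C hC => (Finset.mem_filter.1 (hrep C hC).1).1
  -- equal fibres
  have hfib : ∀ x y : Pl m → D, co B T c I e x = co B T c I e y →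
      co B T c I (!e) x = co B T c I (!e) y →
      Off e (co B T c I e x) x y → fib B T c I K' e x = fib B T c I K' e y := by
    intro x y hc1 hc2 hxy
    have hc01 : co B T c I false x = co B T c I false y ∧
        co B T c I true x = co B T c I true y := by
      cases e
      · exact ⟨hc1, hc2⟩
      · exact ⟨hc2, hc1⟩
    unfold fib
    rw [hc01.1, hc01.2, hc1]
    apply Finset.filter_congr
    intro z _
    rw [hc1] at hxy
    constructor
    · rintro ⟨k1, k2, k3⟩
      exact ⟨k1, k2, k3.trans hxy⟩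
    · rintro ⟨k1, k2, k3⟩
      exact ⟨k1, k2, k3.trans hxy.symm⟩
  -- the classes cover the small points
  have s1 : small.card * 2 ^ g ≤ cl.card * q ^ a := by
    have hcov : small ⊆ cl.biUnion id := by
      intro x hx
      rw [Finset.mem_biUnion]
      refine ⟨fib B T c I K' e x, Finset.mem_image_of_mem _ hx, ?_⟩
      show x ∈ fib B T c I K' e x
      unfold fib
      rw [Finset.mem_filter]
      exact ⟨(Finset.mem_filter.1 hx).1, rfl, rfl, Off.refl _ _ _⟩
    calc small.card * 2 ^ g ≤ (cl.biUnion id).card * 2 ^ g :=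
          Nat.mul_le_mul_right _ (Finset.card_le_card hcov)
      _ ≤ (∑ C ∈ cl, C.card) * 2 ^ g := Nat.mul_le_mul_right _ Finset.card_biUnion_le
      _ = ∑ C ∈ cl, C.card * 2 ^ g := by rw [Finset.sum_mul]
      _ ≤ ∑ _C ∈ cl, q ^ a := by
          apply Finset.sum_le_sum
          intro C hC
          obtain ⟨hx, hxC⟩ := hrep C hC
          have := (Finset.mem_filter.1 hx).2
          rw [hxC, mul_comm, ← hq] at this
          exact this.le
      _ = cl.card * q ^ a := by rw [Finset.sum_const, smul_eq_mul]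
  -- double counting
  have s2 : cl.card * q ^ a = ∑ z : Pl m → D,
      (cl.filter fun C => Off e (co B T c I e (rep C)) z (rep C)).card := by
    have e1 : ∀ C ∈ cl, (univ.filter fun z : Pl m → D =>
        Off e (co B T c I e (rep C)) z (rep C)).card = q ^ a := by
      intro C hC
      rw [card_off, h1 _ (hrepK C hC), hq]
    rw [← smul_eq_mul, ← Finset.sum_const, ← Finset.sum_congr rfl e1]
    simp only [Finset.card_filter]
    rw [Finset.sum_comm]
  -- the classes compatible with `z`
  have s3 : ∀ z : Pl m → D,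
      (cl.filter fun C => Off e (co B T c I e (rep C)) z (rep C)).card ≤
      (∑ i ∈ range (d + 1), (a + d).choose i) * ∑ i ∈ range (d + 1), (b + d).choose i := by
    intro z
    set cz := cl.filter fun C => Off e (co B T c I e (rep C)) z (rep C) with hcz
    rcases Finset.eq_empty_or_nonempty cz with hempty | ⟨C0, hC0⟩
    · rw [hempty, Finset.card_empty]
      exact Nat.zero_le _
    obtain ⟨hC0cl, hC0z⟩ := Finset.mem_filter.1 hC0
    have hsame : ∀ C ∈ cz, ∀ j, T j ≠ kd e → B.Rd j (rep C) = B.Rd j (rep C0) := by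
      intro C hC j hj
      obtain ⟨hCcl, hCz⟩ := Finset.mem_filter.1 hC
      exact det_off B T c I e (hK (hrepK C hCcl)) (hK (hrepK C0 hC0cl)) hCz hC0z hj
    set H := ha B T I e (rep C0) with hH
    set Q := ba B T c I (!e) (rep C0) with hQ
    have hHc : ∀ C ∈ cz, ha B T I e (rep C) = H := fun C hC => ha_eq B T I e (hsame C hC)
    have hQc : ∀ C ∈ cz, ba B T c I (!e) (rep C) = Q := fun C hC =>
      ba_eq B T c I e (hsame C hC)
    have hHcard : H.card ≤ a + d := by
      have k1 := Finset.card_sdiff_add_card_eq_card (co_ha B T c I e (rep C0))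
      have k2 := h1 _ (hrepK C0 hC0cl)
      have k3 := h3 _ (hrepK C0 hC0cl)
      rw [← hH] at k1 k3
      omega
    have hQcard : Q.card ≤ b + d := by
      have k1 := Finset.card_sdiff_add_card_eq_card (co_ba B T c I (!e) (rep C0))
      have k2 := h2 _ (hrepK C0 hC0cl)
      have k3 := h4 _ (hrepK C0 hC0cl)
      rw [← hQ] at k1 k3
      omega
    calc cz.card ≤ ((H.powerset.filter fun A => A.card ≤ d) ×ˢ
          (Q.powerset.filter fun A => A.card ≤ d)).card := by
          apply Finset.card_le_card_of_injOn (fun C => (H \ co B T c I e (rep C),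
            Q \ co B T c I (!e) (rep C)))
          · intro C hC
            have hC' : C ∈ cz := hC
            have hCK := hrepK C (Finset.mem_filter.1 hC').1
            rw [Finset.mem_coe, Finset.mem_product, Finset.mem_filter, Finset.mem_filter,
              Finset.mem_powerset, Finset.mem_powerset]
            refine ⟨⟨Finset.sdiff_subset, ?_⟩, Finset.sdiff_subset, ?_⟩
            · rw [← hHc C hC']; exact h3 _ hCK
            · rw [← hQc C hC']; exact h4 _ hCK
          · intro C hC C' hC' heq
            have hCm : C ∈ cz := hC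
            have hCm' : C' ∈ cz := hC'
            obtain ⟨g1, g2⟩ := Prod.mk.inj heq
            have k1 : co B T c I e (rep C) = co B T c I e (rep C') := by
              have a1 := co_ha B T c I e (rep C)
              have a2 := co_ha B T c I e (rep C')
              rw [hHc C hCm] at a1
              rw [hHc C' hCm'] at a2
              rw [← Finset.sdiff_sdiff_eq_self a1, ← Finset.sdiff_sdiff_eq_self a2, g1]
            have k2 : co B T c I (!e) (rep C) = co B T c I (!e) (rep C') := by
              have a1 := co_ba B T c I (!e) (rep C)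
              have a2 := co_ba B T c I (!e) (rep C')
              rw [hQc C hCm] at a1
              rw [hQc C' hCm'] at a2
              rw [← Finset.sdiff_sdiff_eq_self a1, ← Finset.sdiff_sdiff_eq_self a2, g2]
            obtain ⟨hCcl, hCz⟩ := Finset.mem_filter.1 hCm
            obtain ⟨hCcl', hCz'⟩ := Finset.mem_filter.1 hCm'
            rw [← (hrep C hCcl).2, ← (hrep C' hCcl').2]
            apply hfib _ _ k1 k2
            rw [← k1] at hCz'
            exact hCz.symm.trans hCz'
      _ ≤ _ := by
          rw [Finset.card_product]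
          exact Nat.mul_le_mul (V5_few H d (a + d) hHcard) (V5_few Q d (b + d) hQcard)
  rw [s2] at s1
  refine s1.trans ((Finset.sum_le_sum fun z _ => s3 z).trans ?_)
  rw [Finset.sum_const, smul_eq_mul, Finset.card_univ]
  apply Nat.mul_le_mul_right
  simp

end

end Pool.Agent.K7.H45.LL
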