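import Pool.Agent.K7.H45.LL.Prog

/-!
# Graphs without `K_{r,r}` and deterministic programs of linear length
-/

set_option autoImplicit false

open Finset

namespace Pool.Agent.K7.H45.LL

theorem div_le_half {Q m a : ℕ} (hQ : 0 < Q) (h : m ≤ Q * a) : m / (2 * Q) ≤ a / 2 := by
  calc m / (2 * Q) = m / Q / 2 := by rw [Nat.mul_comm, Nat.div_div_eq_div_mul]
    _ ≤ a / 2 := by
      apply Nat.div_le_div_right
      rw [Nat.div_le_iff_le_mul_add_pred hQ]
      omega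

theorem side_le {q a g u c : ℕ} (hq : 2 ≤ q) (hg : 2 * g ≤ a) (hu : u ≤ a / 2)
    (h : q ^ a ≤ 2 ^ g * c) : 2 ^ u ≤ c := by
  have h1 : 2 ^ g * 2 ^ u ≤ 2 ^ g * c := by
    calc 2 ^ g * 2 ^ u = 2 ^ (g + u) := by rw [pow_add]
      _ ≤ 2 ^ a := Nat.pow_le_pow_right (by norm_num) (by omega)
      _ ≤ q ^ a := Nat.pow_le_pow_left hq _
      _ ≤ 2 ^ g * c := h
  exact Nat.le_of_mul_le_mul_left h1 (by positivity)

/-- two large sets all pairs of which are edges -/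
theorem contains_of {V : Type} (G : SimpleGraph V) (X Y : Finset V) (R : ℕ) (hX : R ≤ X.card)
    (hY : R ≤ Y.card) (h : ∀ x ∈ X, ∀ y ∈ Y, G.Adj x y) :
    (completeBipartiteGraph (Fin R) (Fin R)).IsContained G := by
  obtain ⟨X', hX', hXc⟩ := Finset.exists_subset_card_eq hX
  obtain ⟨Y', hY', hYc⟩ := Finset.exists_subset_card_eq hY
  rw [SimpleGraph.completeBipartiteGraph_isContained_iff]
  refine ⟨X', Y', by simpa using hXc, by simpa using hYc, ?_⟩
  intro x hx y hy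
  exact h x (hX' hx) y (hY' hy)

theorem free_mono {V : Type} (G : SimpleGraph V) {r R : ℕ} (hr : r ≤ R)
    (h : (completeBipartiteGraph (Fin r) (Fin r)).Free G) :
    (completeBipartiteGraph (Fin R) (Fin R)).Free G := by
  intro hc
  apply h
  rw [SimpleGraph.completeBipartiteGraph_isContained_iff] at hc
  obtain ⟨X, Y, hX, hY, hXY⟩ := hc
  rw [Fintype.card_fin] at hX hY
  exact contains_of G X Y r (by omega) (by omega) fun x hx y hy => hXY hx hy

theorem card_pairs {V : Type} [Fintype V] (G : SimpleGraph V) :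
    Nat.card {p : V × V // G.Adj p.1 p.2} = 2 * Nat.card G.edgeSet := by
  classical
  have h1 : Nat.card {p : V × V // G.Adj p.1 p.2} = Nat.card G.Dart :=
    Nat.card_congr ⟨fun p => ⟨p.1, p.2⟩, fun d => ⟨d.toProd, d.adj⟩, fun _ => rfl, fun _ => rfl⟩
  rw [h1, Nat.card_eq_fintype_card, SimpleGraph.dart_card_eq_twice_card_edges,
    Nat.card_eq_fintype_card, ← SimpleGraph.edgeFinset_card]

/-- the bound -/
theorem lin_bound (k : ℕ) : ∃ Q : ℕ, 1 ≤ Q ∧ ∀ (D : Type) [Fintype D] (m : ℕ)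
    (ι : Type) [Fintype ι] (P : ι → Prog (Fin m ⊕ Fin m) D) (G : SimpleGraph (Fin m → D)),
    2 ≤ Fintype.card D → Q ≤ m → Fintype.card ι ≤ 2 ^ (m / Q) →
    (∀ i, Fintype.card (P i).State ≤ 2 ^ (m / Q)) →
    (∀ i x y t, (P i).Answers (Sum.elim x y) true t → G.Adj x y) →
    (completeBipartiteGraph (Fin (2 ^ (m / Q))) (Fin (2 ^ (m / Q)))).Free G →
    2 ^ (m / Q) * Nat.card {p : (Fin m → D) × (Fin m → D) //
      ∃ i, (P i).Answers (Sum.elim p.1 p.2) true (k * m)} ≤ (Fintype.card D ^ m) ^ 2 := by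
  classical
  obtain ⟨Q, hQ, h⟩ := rect_prog k 2 (by norm_num)
  refine ⟨2 * Q, by omega, ?_⟩
  intro D _ m ι _ P G hD hm hι hst hadj hfree
  by_contra hcon
  push Not at hcon
  have : Nonempty D := Fintype.card_pos_iff.1 (by omega)
  obtain ⟨q, hq⟩ : ∃ q, q = Fintype.card D := ⟨_, rfl⟩
  rw [← hq] at hcon hD
  obtain ⟨M, hM⟩ : ∃ M, M = 2 ^ (m / (2 * Q)) := ⟨_, rfl⟩
  -- one program
  set W : ι → Finset (Pl m → D) := fun i =>
    univ.filter (fun z => (P i).Answers z true (k * m)) with hW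
  have hcount : Nat.card {p : (Fin m → D) × (Fin m → D) //
      ∃ i, (P i).Answers (Sum.elim p.1 p.2) true (k * m)} ≤ ∑ i, (W i).card := by
    refine le_trans ?_ Finset.card_biUnion_le
    have e : (univ.biUnion W).card = Nat.card {z // z ∈ univ.biUnion W} := by
      rw [Nat.card_eq_fintype_card, Fintype.card_coe]
    rw [e]
    refine Nat.card_le_card_of_injective (fun p => ⟨Sum.elim p.1.1 p.1.2, ?_⟩) ?_
    · obtain ⟨i, hi⟩ := p.2
      exact mem_biUnion.2 ⟨i, mem_univ _, mem_filter.2 ⟨mem_univ _, hi⟩⟩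
    · intro p p' hpp
      have h4 := congrArg Subtype.val hpp
      simp only at h4
      apply Subtype.ext
      apply Prod.ext
      · funext v
        exact congrFun h4 (Sum.inl v)
      · funext v
        exact congrFun h4 (Sum.inr v)
  obtain ⟨i, hi⟩ : ∃ i, q ^ (m + m) < 2 ^ (m / Q) * (W i).card := by
    by_contra hall
    push Not at hall
    have h5 : M * (M * ∑ i, (W i).card) ≤ M * q ^ (m + m) := by
      have h6 : M * M ≤ 2 ^ (m / Q) := by
        rw [hM, ← pow_add]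
        apply Nat.pow_le_pow_right (by norm_num)
        have : m / (2 * Q) = m / Q / 2 := by rw [Nat.mul_comm, Nat.div_div_eq_div_mul]
        omega
      calc M * (M * ∑ i, (W i).card) = (M * M) * ∑ i, (W i).card := by ring
        _ ≤ 2 ^ (m / Q) * ∑ i, (W i).card := Nat.mul_le_mul_right _ h6
        _ = ∑ i, 2 ^ (m / Q) * (W i).card := by rw [Finset.mul_sum]
        _ ≤ ∑ _i : ι, q ^ (m + m) := sum_le_sum fun i _ => hall i
        _ = Fintype.card ι * q ^ (m + m) := by simp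
        _ ≤ M * q ^ (m + m) := Nat.mul_le_mul_right _ (by rw [hM]; exact hι)
    have h7 : M * ∑ i, (W i).card ≤ q ^ (m + m) :=
      Nat.le_of_mul_le_mul_left h5 (by rw [hM]; positivity)
    have h8 : (q ^ m) ^ 2 = q ^ (m + m) := by rw [← pow_mul]; congr 1; omega
    rw [h8, ← hM] at hcon
    have h9 := hcon.trans_le (Nat.mul_le_mul_left M hcount)
    omega
  have hle : m / (2 * Q) ≤ m / Q := Nat.div_le_div_left (by omega) hQ
  obtain ⟨a, g, K, ha, hg, -, hK, ⟨R⟩⟩ := h (Pl m) D D m (P i) id (fun p => some p)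
    (fun z z' p hp => hp p rfl) (by omega)
    ((hst i).trans (Nat.pow_le_pow_right (by norm_num) hle)) true (W i)
    (fun z hz => (mem_filter.1 hz).2) (by rw [← hq]; exact hi)
  have hu := div_le_half hQ ha
  refine hfree (contains_of G R.X R.Y _ (side_le hD hg hu (by rw [hq]; exact R.nX))
    (side_le hD hg hu (by rw [hq]; exact R.nY)) fun x hx y hy => ?_)
  obtain ⟨t, ht⟩ := hK _ (R.mem x hx y hy)
  exact hadj i x y t ht

/-- the asymptotic form -/
theorem lin_large (k : ℕ) : ∃ R : ℕ, ∀ r : ℕ, R ≤ r → ∃ δ : ℝ, 0 < δ ∧ ∀ c : ℝ, 0 < c →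
    ∃ m₀ : ℕ, ∀ (m : ℕ) (P : Prog (Fin m ⊕ Fin m) Bool) (G : SimpleGraph (Fin m → Bool)),
      m₀ ≤ m → (∀ x y t, P.Answers (Sum.elim x y) true t → G.Adj x y) →
      (∀ x y, G.Adj x y → P.Answers (Sum.elim x y) true (k * m)) →
      (completeBipartiteGraph (Fin r) (Fin r)).Free G →
      c * ((2 : ℝ) ^ m) ^ (2 - 1 / (r : ℝ)) ≤ Nat.card G.edgeSet →
      ((2 : ℝ) ^ m) ^ δ ≤ Fintype.card P.State := by
  obtain ⟨Q, hQ, h⟩ := lin_bound k
  refine ⟨Q + 1, fun r hr => ⟨1 / (2 * Q), by positivity, fun c hc => ?_⟩⟩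
  have hQR : (1 : ℝ) ≤ Q := by exact_mod_cast hQ
  have hrR : (Q : ℝ) + 1 ≤ r := by exact_mod_cast hr
  obtain ⟨ε, hε⟩ : ∃ ε : ℝ, ε = 1 / Q - 1 / r := ⟨_, rfl⟩
  have hε0 : 0 < ε := by
    rw [hε, sub_pos]
    exact one_div_lt_one_div_of_lt (by linarith) (by linarith)
  have htend : Filter.Tendsto (fun m : ℕ => ((2 : ℝ) ^ ε) ^ m) Filter.atTop Filter.atTop :=
    tendsto_pow_atTop_atTop_of_one_lt (Real.one_lt_rpow (by norm_num) hε0)
  obtain ⟨m₁, hm₁⟩ := (htend.eventually_gt_atTop (1 / c)).exists_forall_of_atTop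
  refine ⟨max (Q * (r + 1)) m₁, fun m P G hm hadj hacc hfree he => ?_⟩
  have hmQ : Q * (r + 1) ≤ m := le_of_max_le_left hm
  have hm2 := hm₁ m (le_of_max_le_right hm)
  have hQm : Q ≤ m := le_trans (Nat.le_mul_of_pos_right _ (by omega)) hmQ
  by_contra hlt
  push Not at hlt
  -- the program is small
  have hdiv : r + 1 ≤ m / Q := (Nat.le_div_iff_mul_le hQ).2 (by rw [mul_comm]; exact hmQ)
  have hfloor : (m : ℝ) / Q < ((m / Q : ℕ) : ℝ) + 1 := by
    rw [div_lt_iff₀ (by linarith)]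
    have : m < Q * (m / Q + 1) := Nat.lt_mul_div_succ m hQ
    have h2 : (m : ℝ) < Q * (((m / Q : ℕ) : ℝ) + 1) := by exact_mod_cast this
    linarith
  have hst : Fintype.card P.State ≤ 2 ^ (m / Q) := by
    have h1 : ((2 : ℝ) ^ m) ^ (1 / (2 * Q) : ℝ) ≤ (2 : ℝ) ^ (m / Q) := by
      rw [← Real.rpow_natCast, ← Real.rpow_mul (by norm_num), ← Real.rpow_natCast]
      apply Real.rpow_le_rpow_of_exponent_le (by norm_num)
      have h2 : (m : ℝ) * (1 / (2 * Q)) = m / Q / 2 := by field_simp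
      rw [h2]
      have h3 : (1 : ℝ) ≤ ((m / Q : ℕ) : ℝ) := by
        have : 1 ≤ m / Q := by omega
        exact_mod_cast this
      linarith
    have h4 : (Fintype.card P.State : ℝ) ≤ (2 : ℝ) ^ (m / Q) := hlt.le.trans h1
    exact_mod_cast h4
  have hrM : r ≤ 2 ^ (m / Q) := by
    have h1 : m / Q < 2 ^ (m / Q) := Nat.lt_two_pow_self
    omega
  have h1 := h Bool m Unit (fun _ => P) G (by simp) hQm
    (by simpa using Nat.one_le_two_pow) (fun _ => hst) (fun _ => hadj) (free_mono G hrM hfree)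
  have h2 : Nat.card {p : (Fin m → Bool) × (Fin m → Bool) //
      ∃ _i : Unit, P.Answers (Sum.elim p.1 p.2) true (k * m)} = 2 * Nat.card G.edgeSet := by
    rw [← card_pairs G]
    apply Nat.card_congr
    apply Equiv.subtypeEquivRight
    intro p
    constructor
    · rintro ⟨-, h3⟩
      exact hadj _ _ _ h3
    · intro h3
      exact ⟨(), hacc _ _ h3⟩
  rw [h2, Fintype.card_bool] at h1
  have h3 : (2 : ℝ) ^ (m / Q) * (2 * (Nat.card G.edgeSet : ℝ)) ≤ ((2 : ℝ) ^ m) ^ 2 := by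
    exact_mod_cast h1
  have h4 : (2 : ℝ) ^ ((m : ℝ) / Q) ≤ 2 * (2 : ℝ) ^ (m / Q) := by
    have : (2 : ℝ) * (2 : ℝ) ^ (m / Q) = (2 : ℝ) ^ (((m / Q : ℕ) : ℝ) + 1) := by
      rw [Real.rpow_add (by norm_num), Real.rpow_natCast, Real.rpow_one, mul_comm]
    rw [this]
    exact Real.rpow_le_rpow_of_exponent_le (by norm_num) hfloor.le
  have hE0 : (0 : ℝ) ≤ Nat.card G.edgeSet := Nat.cast_nonneg _
  have h5 : (2 : ℝ) ^ ((m : ℝ) / Q) * (Nat.card G.edgeSet : ℝ) ≤ ((2 : ℝ) ^ m) ^ 2 := by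
    calc (2 : ℝ) ^ ((m : ℝ) / Q) * (Nat.card G.edgeSet : ℝ) ≤
          2 * (2 : ℝ) ^ (m / Q) * (Nat.card G.edgeSet : ℝ) :=
          mul_le_mul_of_nonneg_right h4 hE0
      _ = (2 : ℝ) ^ (m / Q) * (2 * (Nat.card G.edgeSet : ℝ)) := by ring
      _ ≤ _ := h3
  have h6 : (2 : ℝ) ^ ((m : ℝ) / Q) * (c * ((2 : ℝ) ^ m) ^ (2 - 1 / (r : ℝ))) ≤
      ((2 : ℝ) ^ m) ^ 2 :=
    (mul_le_mul_of_nonneg_left he (by positivity)).trans h5
  have h7 : (2 : ℝ) ^ ((m : ℝ) / Q) * (c * ((2 : ℝ) ^ m) ^ (2 - 1 / (r : ℝ))) =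
      c * ((2 : ℝ) ^ ε) ^ m * ((2 : ℝ) ^ m) ^ 2 := by
    have e1 : ((2 : ℝ) ^ m) ^ (2 - 1 / (r : ℝ)) = (2 : ℝ) ^ ((m : ℝ) * (2 - 1 / r)) := by
      rw [← Real.rpow_natCast, ← Real.rpow_mul (by norm_num)]
    have e2 : ((2 : ℝ) ^ ε) ^ m = (2 : ℝ) ^ (ε * m) := by
      rw [Real.rpow_mul (by norm_num), Real.rpow_natCast]
    have e3 : ((2 : ℝ) ^ m) ^ 2 = (2 : ℝ) ^ ((m : ℝ) * 2) := by
      rw [← pow_mul, ← Real.rpow_natCast]
      push_cast
      ring_nf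
    rw [e1, e2, e3]
    calc (2 : ℝ) ^ ((m : ℝ) / Q) * (c * (2 : ℝ) ^ ((m : ℝ) * (2 - 1 / r)))
        = c * ((2 : ℝ) ^ ((m : ℝ) / Q) * (2 : ℝ) ^ ((m : ℝ) * (2 - 1 / r))) := by ring
      _ = c * (2 : ℝ) ^ ((m : ℝ) / Q + (m : ℝ) * (2 - 1 / r)) := by
          rw [← Real.rpow_add (by norm_num)]
      _ = c * (2 : ℝ) ^ (ε * m + (m : ℝ) * 2) := by
          congr 2
          rw [hε]
          ring
      _ = c * (2 : ℝ) ^ (ε * m) * (2 : ℝ) ^ ((m : ℝ) * 2) := by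
          rw [Real.rpow_add (by norm_num)]
          ring
  rw [h7] at h6
  have h8 : 1 < c * ((2 : ℝ) ^ ε) ^ m := by
    have : 1 / c * c < ((2 : ℝ) ^ ε) ^ m * c := mul_lt_mul_of_pos_right hm2 hc
    rw [one_div, inv_mul_cancel₀ hc.ne'] at this
    linarith
  have h9 : (0 : ℝ) < ((2 : ℝ) ^ m) ^ 2 := by positivity
  nlinarith

end Pool.Agent.K7.H45.LL
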