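import Pool.Agent.H554R2.Lin.Random

/-!
# Deterministic programs of linear length: random kinds of blocks, two systems of variables
-/

set_option autoImplicit false

open Finset

namespace Pool.Agent.K7.H45.LL

open Pool.Agent.H554R2.Lin

/-- good kinds for one system of variables -/
def Good1 {m r : ℕ} (S : Fin m → Finset (Fin r)) (T : Fin r → Fin 3) (e : Fin 3) (c : ℕ)
    (E μ : ℝ) : Prop :=
  2 / 3 * μ ≤ ((core S T e c).card : ℝ) ∧ ((core S T e c).card : ℝ) ≤ 4 / 3 * μ ∧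
    E * ((hat S T e \ core S T e c).card : ℝ) ≤ 12 * μ ∧
    E * ((bar S T e c \ core S T e c).card : ℝ) ≤ 12 * μ

theorem bad_le {m r q c : ℕ} (hq : 0 < q) (S : Fin m → Finset (Fin r)) (e : Fin 3) (x y : Fin q)
    (hx : ∀ (T : Fin r → Fin q) j, kind T j = e ↔ T j = x)
    (hy : ∀ (T : Fin r → Fin q) j, kind T j ≠ 2 ↔ T j = x ∨ T j = y) (E : ℝ) (hE : 0 < E)
    (h1 : E * ∑ t ∈ (range (r + 1)).erase c, (cnt S t : ℝ) / (q : ℝ) ^ t ≤ cnt S c / (q : ℝ) ^ c)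
    (h2 : E * ∑ t ∈ (range (r + 1)).filter (fun t => c < t),
      (cnt S t : ℝ) * t.choose c / (q : ℝ) ^ t ≤ cnt S c / (q : ℝ) ^ c)
    (h3 : 180 * ∑ j : Fin r, ((univ.filter (fun v => j ∈ S v)).card : ℝ) ^ 2 ≤
      (cnt S c / (q : ℝ) ^ c) ^ 2) :
    ∃ Bad : Finset (Fin r → Fin q), 60 * (Bad.card : ℝ) ≤ 13 * (q : ℝ) ^ r ∧
      ∀ T, T ∉ Bad → Good1 S (kind T) e c E (cnt S c / (q : ℝ) ^ c) := by
  classical
  obtain ⟨μ, hμ⟩ : ∃ μ : ℝ, μ = cnt S c / (q : ℝ) ^ c := ⟨_, rfl⟩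
  have hμ0 : 0 ≤ μ := by rw [hμ]; positivity
  obtain ⟨N, hN⟩ : ∃ N : ℝ, N = (q : ℝ) ^ r := ⟨_, rfl⟩
  have hN0 : 0 ≤ N := by rw [hN]; positivity
  have hm : 0 ≤ μ / E := by positivity
  have s1 : ∑ t ∈ (range (r + 1)).erase c, (cnt S t : ℝ) / (q : ℝ) ^ t ≤ μ / E := by
    rw [le_div_iff₀ hE, mul_comm, hμ]; exact h1
  have s2 : ∑ t ∈ (range (r + 1)).filter (fun t => c < t),
      (cnt S t : ℝ) * t.choose c / (q : ℝ) ^ t ≤ μ / E := by
    rw [le_div_iff₀ hE, mul_comm, hμ]; exact h2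
  have s3 : ∑ j : Fin r, ((univ.filter (fun v => j ∈ S v)).card : ℝ) ^ 2 ≤ μ ^ 2 / 180 := by
    rw [← hμ] at h3
    linarith
  have A0 := v4_markov (fun T : Fin r → Fin q => (((core S (kind T) e c).card : ℝ) - μ) ^ 2)
    (fun T => sq_nonneg _) (m := μ ^ 2 / 180) (k := 20) hN0 (by positivity) (by norm_num) (by
      have := v4_var (c := c) S hq hx
      rw [← hμ, ← hN] at this
      exact this.trans (mul_le_mul_of_nonneg_left s3 hN0))
  have B0 := v4_markov (fun T : Fin r → Fin q =>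
    ((hat S (kind T) e \ core S (kind T) e c).card : ℝ)) (fun T => Nat.cast_nonneg _)
    (m := μ / E) (k := 12) hN0 hm (by norm_num) (by
      have := v4_hat (c := c) S hq hx
      rw [← hN] at this
      exact this.trans (mul_le_mul_of_nonneg_left s1 hN0))
  have C0 := v4_markov (fun T : Fin r → Fin q =>
    ((bar S (kind T) e c \ core S (kind T) e c).card : ℝ)) (fun T => Nat.cast_nonneg _)
    (m := μ / E) (k := 12) hN0 hm (by norm_num) (by
      have := v4_bar (c := c) S hq hx hy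
      rw [← hN] at this
      exact this.trans (mul_le_mul_of_nonneg_left s2 hN0))
  set F1 := univ.filter (fun T : Fin r → Fin q =>
    20 * (μ ^ 2 / 180) < (((core S (kind T) e c).card : ℝ) - μ) ^ 2) with hF1
  set F2 := univ.filter (fun T : Fin r → Fin q =>
    12 * (μ / E) < ((hat S (kind T) e \ core S (kind T) e c).card : ℝ)) with hF2
  set F3 := univ.filter (fun T : Fin r → Fin q =>
    12 * (μ / E) < ((bar S (kind T) e c \ core S (kind T) e c).card : ℝ)) with hF3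
  refine ⟨F1 ∪ (F2 ∪ F3), ?_, ?_⟩
  · have hc : (F1 ∪ (F2 ∪ F3)).card ≤ F1.card + (F2.card + F3.card) :=
      (card_union_le _ _).trans (Nat.add_le_add_left (card_union_le _ _) _)
    have hc' : ((F1 ∪ (F2 ∪ F3)).card : ℝ) ≤ F1.card + (F2.card + F3.card) := by
      exact_mod_cast hc
    rw [← hN]
    linarith
  · intro T hT
    rw [mem_union, mem_union, not_or, not_or, hF1, hF2, hF3, mem_filter, mem_filter, mem_filter]
      at hT
    simp only [mem_univ, true_and, not_lt] at hT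
    obtain ⟨a0, b0, c0⟩ := hT
    rw [← hμ]
    have hsq : ∀ z : ℝ, (z - μ) ^ 2 ≤ 20 * (μ ^ 2 / 180) → 2 / 3 * μ ≤ z ∧ z ≤ 4 / 3 * μ := by
      intro z hz
      have h4 : (z - μ) ^ 2 ≤ (μ / 3) ^ 2 := by
        calc (z - μ) ^ 2 ≤ 20 * (μ ^ 2 / 180) := hz
          _ = (μ / 3) ^ 2 := by ring
      have h5 := abs_le_of_sq_le_sq' h4 (by positivity)
      constructor <;> linarith [h5.1, h5.2]
    have hd : ∀ z : ℕ, (z : ℝ) ≤ 12 * (μ / E) → E * (z : ℝ) ≤ 12 * μ := by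
      intro z hz
      calc E * (z : ℝ) ≤ E * (12 * (μ / E)) := mul_le_mul_of_nonneg_left hz hE.le
        _ = 12 * μ := by field_simp
    exact ⟨(hsq _ a0).1, (hsq _ a0).2, hd _ b0, hd _ c0⟩

/-- L4: random kinds of the blocks -/
theorem random2 {m r q c c' : ℕ} (hq : 3 ≤ q) (S S' : Fin m → Finset (Fin r)) (E : ℝ)
    (hE : 0 < E)
    (h1 : E * ∑ t ∈ (range (r + 1)).erase c, (cnt S t : ℝ) / (q : ℝ) ^ t ≤ cnt S c / (q : ℝ) ^ c)
    (h2 : E * ∑ t ∈ (range (r + 1)).filter (fun t => c < t),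
      (cnt S t : ℝ) * t.choose c / (q : ℝ) ^ t ≤ cnt S c / (q : ℝ) ^ c)
    (h3 : 180 * ∑ j : Fin r, ((univ.filter (fun v => j ∈ S v)).card : ℝ) ^ 2 ≤
      (cnt S c / (q : ℝ) ^ c) ^ 2)
    (h1' : E * ∑ t ∈ (range (r + 1)).erase c', (cnt S' t : ℝ) / (q : ℝ) ^ t ≤
      cnt S' c' / (q : ℝ) ^ c')
    (h2' : E * ∑ t ∈ (range (r + 1)).filter (fun t => c' < t),
      (cnt S' t : ℝ) * t.choose c' / (q : ℝ) ^ t ≤ cnt S' c' / (q : ℝ) ^ c')
    (h3' : 180 * ∑ j : Fin r, ((univ.filter (fun v => j ∈ S' v)).card : ℝ) ^ 2 ≤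
      (cnt S' c' / (q : ℝ) ^ c') ^ 2) :
    ∃ T : Fin r → Fin 3, Good1 S T 0 c E (cnt S c / (q : ℝ) ^ c) ∧
      Good1 S' T 1 c' E (cnt S' c' / (q : ℝ) ^ c') := by
  classical
  have hq0 : 0 < q := by omega
  have t0 : ∀ (T : Fin r → Fin q) j, T j = ⟨0, by omega⟩ ↔ (T j : ℕ) = 0 := fun T j => Fin.ext_iff
  have t1 : ∀ (T : Fin r → Fin q) j, T j = ⟨1, by omega⟩ ↔ (T j : ℕ) = 1 := fun T j => Fin.ext_iff
  have x0 : ∀ (T : Fin r → Fin q) j, kind T j = 0 ↔ T j = ⟨0, by omega⟩ := by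
    intro T j
    rw [t0]
    unfold kind
    split_ifs with a b
    · exact iff_of_true rfl a
    · exact iff_of_false (by decide) a
    · exact iff_of_false (by decide) a
  have x1 : ∀ (T : Fin r → Fin q) j, kind T j = 1 ↔ T j = ⟨1, by omega⟩ := by
    intro T j
    rw [t1]
    unfold kind
    split_ifs with a b
    · exact iff_of_false (by decide) (by omega)
    · exact iff_of_true rfl b
    · exact iff_of_false (by decide) b
  have y0 : ∀ (T : Fin r → Fin q) j, kind T j ≠ 2 ↔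
      T j = ⟨0, by omega⟩ ∨ T j = ⟨1, by omega⟩ := by
    intro T j
    rw [t0, t1]
    unfold kind
    split_ifs with a b
    · exact iff_of_true (by decide) (Or.inl a)
    · exact iff_of_true (by decide) (Or.inr b)
    · exact iff_of_false (fun h => h rfl) (fun h => h.elim a b)
  have y1 : ∀ (T : Fin r → Fin q) j, kind T j ≠ 2 ↔
      T j = ⟨1, by omega⟩ ∨ T j = ⟨0, by omega⟩ := fun T j => (y0 T j).trans or_comm
  obtain ⟨B0, hB0, g0⟩ := bad_le hq0 S 0 _ _ x0 y0 E hE h1 h2 h3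
  obtain ⟨B1, hB1, g1⟩ := bad_le hq0 S' 1 _ _ x1 y1 E hE h1' h2' h3'
  obtain ⟨T, hT⟩ : ∃ T : Fin r → Fin q, T ∉ B0 ∪ B1 := by
    by_contra hcon
    push Not at hcon
    have h5 : (univ : Finset (Fin r → Fin q)) ⊆ B0 ∪ B1 := fun T _ => hcon T
    have h6 := (card_le_card h5).trans (card_union_le _ _)
    rw [card_univ, Fintype.card_fun, Fintype.card_fin, Fintype.card_fin] at h6
    have h7 : ((q : ℝ)) ^ r ≤ (B0.card : ℝ) + B1.card := by exact_mod_cast h6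
    have h8 : (0 : ℝ) < (q : ℝ) ^ r := by positivity
    linarith
  rw [mem_union, not_or] at hT
  exact ⟨kind T, g0 T hT.1, g1 T hT.2⟩

end Pool.Agent.K7.H45.LL
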