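import Pool.Agent.K7.H45.LL.Fib

/-!
# The rectangle of two large classes
-/

set_option autoImplicit false

open Finset

namespace Pool.Agent.K7.H45.LL

variable {D : Type} {m r s : ℕ}

open Classical in
theorem rect_of [Fintype D] [Nonempty D] (B : Blk D m r s) (T : Fin r → Fin 3)
    (c : Bool → ℕ) (I : Bool → Finset (Fin m)) {a b d g : ℕ} (K' V : Finset (Pl m → D))
    (hK : K' ⊆ B.K) (hV : K' ⊆ V) (ht : ∀ x ∈ K', Typ B T c I a b d x)
    (hbig : 2 * (Fintype.card D ^ (m + m) * ((∑ i ∈ range (d + 1), (a + d).choose i) *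
      ∑ i ∈ range (d + 1), (b + d).choose i)) < K'.card * 2 ^ g) :
    Nonempty (Rect B.K V (Fintype.card D) a b g) := by
  have f0 := gen (a := a) (b := b) (d := d) (g := g) B T c I K' hK false
    (fun x hx => (ht x hx).1) (fun x hx => (ht x hx).2.1)
    (fun x hx => ((ht x hx).2.2 false).1) (fun x hx => ((ht x hx).2.2 true).2)
  have f1 := gen (a := b) (b := a) (d := d) (g := g) B T c I K' hK true
    (fun x hx => (ht x hx).2.1) (fun x hx => (ht x hx).1)
    (fun x hx => ((ht x hx).2.2 true).1) (fun x hx => ((ht x hx).2.2 false).2)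
  rw [mul_comm (∑ i ∈ range (d + 1), (b + d).choose i)] at f1
  obtain ⟨q, hq⟩ : ∃ q, q = Fintype.card D := ⟨_, rfl⟩
  rw [← hq] at f0 f1 hbig ⊢
  -- a point with two large classes
  obtain ⟨z₀, hz₀, h0, h1⟩ : ∃ z₀ ∈ K', q ^ a ≤ 2 ^ g * (fib B T c I K' false z₀).card ∧
      q ^ b ≤ 2 ^ g * (fib B T c I K' true z₀).card := by
    by_contra hcon
    push Not at hcon
    have hsub : K' ⊆ K'.filter (fun x => 2 ^ g * (fib B T c I K' false x).card < q ^ a) ∪
        K'.filter (fun x => 2 ^ g * (fib B T c I K' true x).card < q ^ b) := by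
      intro x hx
      rw [mem_union, mem_filter, mem_filter]
      by_cases h : q ^ a ≤ 2 ^ g * (fib B T c I K' false x).card
      · exact Or.inr ⟨hx, hcon x hx h⟩
      · exact Or.inl ⟨hx, not_le.1 h⟩
    have h2 := (card_le_card hsub).trans (card_union_le _ _)
    have h3 := Nat.mul_le_mul_right (2 ^ g) h2
    rw [add_mul] at h3
    omega
  have key : ∀ e, ∀ z ∈ fib B T c I K' e z₀, z ∈ K' ∧ co B T c I false z = co B T c I false z₀ ∧
      co B T c I true z = co B T c I true z₀ ∧ Off e (co B T c I e z₀) z z₀ := by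
    intro e z hz
    unfold fib at hz
    rw [mem_filter] at hz
    exact ⟨hz.1, hz.2⟩
  have hz₀K := hK hz₀
  -- the arms
  have arm0 : ∀ z ∈ fib B T c I K' false z₀, Sum.elim (z ∘ Sum.inl) (z₀ ∘ Sum.inr) = z := by
    intro z hz
    obtain ⟨-, -, -, ho⟩ := key false z hz
    ext p
    rcases p with v | v
    · rfl
    · exact (ho.1 v).symm
  have arm1 : ∀ z ∈ fib B T c I K' true z₀, Sum.elim (z₀ ∘ Sum.inl) (z ∘ Sum.inr) = z := by
    intro z hz
    obtain ⟨-, -, -, ho⟩ := key true z hz
    ext p
    rcases p with v | v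
    · exact (ho.1 v).symm
    · rfl
  refine ⟨{ A := co B T c I false z₀
            B := co B T c I true z₀
            x0 := z₀ ∘ Sum.inl
            y0 := z₀ ∘ Sum.inr
            X := (fib B T c I K' false z₀).image (fun z => z ∘ Sum.inl)
            Y := (fib B T c I K' true z₀).image (fun z => z ∘ Sum.inr)
            cA := (ht z₀ hz₀).1
            cB := (ht z₀ hz₀).2.1
            hX := ?_
            hY := ?_
            nX := ?_
            nY := ?_
            mX := ?_
            mY := ?_
            mem := ?_ }⟩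
  · intro x hx v hv
    obtain ⟨z, hz, rfl⟩ := mem_image.1 hx
    exact (key false z hz).2.2.2.2 v hv
  · intro y hy v hv
    obtain ⟨z, hz, rfl⟩ := mem_image.1 hy
    exact (key true z hz).2.2.2.2 v hv
  · rw [card_image_of_injOn]
    · exact h0
    · intro z hz w hw hzw
      rw [← arm0 z hz, ← arm0 w hw]
      simp only at hzw
      rw [hzw]
  · rw [card_image_of_injOn]
    · exact h1
    · intro z hz w hw hzw
      rw [← arm1 z hz, ← arm1 w hw]
      simp only at hzw
      rw [hzw]
  · intro x hx
    obtain ⟨z, hz, rfl⟩ := mem_image.1 hx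
    rw [arm0 z hz]
    exact hV (key false z hz).1
  · intro y hy
    obtain ⟨z, hz, rfl⟩ := mem_image.1 hy
    rw [arm1 z hz]
    exact hV (key true z hz).1
  · intro x hx y hy
    obtain ⟨z, hz, rfl⟩ := mem_image.1 hx
    obtain ⟨w, hw, rfl⟩ := mem_image.1 hy
    obtain ⟨kz, cz0, cz1, oz⟩ := key false z hz
    obtain ⟨kw, cw0, cw1, ow⟩ := key true w hw
    refine (B.splice (fun j => if T j = 0 then z else if T j = 1 then w else z₀) ?_ _ ?_).1
    · intro j
      split_ifs
      · exact hK kz
      · exact hK kw
      · exact hz₀K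
    · intro j p hp
      by_cases hT0 : T j = 0
      · simp only [if_pos hT0] at hp ⊢
        rcases p with v | v
        · rfl
        · have h5 : v ∉ co B T c I true z₀ := by
            rw [← cz1]
            exact not_core B T c I true z v j (by rw [hT0]; decide) hp
          exact (ow.2 v h5).trans (oz.1 v).symm
      · by_cases hT1 : T j = 1
        · simp only [if_neg hT0, if_pos hT1] at hp ⊢
          rcases p with v | v
          · have h5 : v ∉ co B T c I false z₀ := by
              rw [← cw0]
              exact not_core B T c I false w v j hT0 hp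
            exact (oz.2 v h5).trans (ow.1 v).symm
          · rfl
        · simp only [if_neg hT0, if_neg hT1] at hp ⊢
          rcases p with v | v
          · have h5 : v ∉ co B T c I false z₀ := not_core B T c I false z₀ v j hT0 hp
            exact oz.2 v h5
          · have h5 : v ∉ co B T c I true z₀ := not_core B T c I true z₀ v j hT1 hp
            exact ow.2 v h5

end Pool.Agent.K7.H45.LL
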