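import Pool.Agent.K7.H45.LL.Scales
import Pool.Agent.K7.H45.LL.Rand
import Pool.Agent.K7.H45.LL.RectOf
import Pool.Agent.K7.H45.LL.Cut
import Pool.Agent.H554R2.Sem.Num
import Pool.Agent.H554R2.Lin.Main

/-!
# Rectangles with one foot in each word
-/

set_option autoImplicit false

open Finset

namespace Pool.Agent.K7.H45.LL

open Pool.Agent.H554R2.Lin (core hat bar cnt cnt_sum cnt_sum_mul)
open Pool.Agent.H554R2.Sem (num_sum_le)

/-- a sum of binomial coefficients -/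
theorem bin_le' (G a d : ℕ) (hG : 1 ≤ G) (hd : 1152 * G * (G + 6) * d ≤ 72 * a) :
    ((∑ i ∈ range (d + 1), (a + d).choose i : ℕ) : ℝ) ≤ (2 : ℝ) ^ ((a : ℝ) / (8 * G)) := by
  obtain ⟨w, hw⟩ : ∃ w, w = G + 6 := ⟨_, rfl⟩
  rw [← hw] at hd
  have hGR : (1 : ℝ) ≤ G := by exact_mod_cast hG
  have hd' : 16 * G * (w * d) ≤ a := by
    have : 72 * (16 * G * (w * d)) ≤ 72 * a := by
      calc 72 * (16 * G * (w * d)) = 1152 * G * w * d := by ring
        _ ≤ 72 * a := hd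
    omega
  have hda : d ≤ a := by
    calc d = 1 * (1 * d) := by ring
      _ ≤ 16 * G * (w * d) := Nat.mul_le_mul (by omega) (Nat.mul_le_mul_right _ (by omega))
      _ ≤ a := hd'
  obtain ⟨x, hx⟩ : ∃ x : ℝ, x = 1 / 2 ^ w := ⟨_, rfl⟩
  have hx0 : 0 < x := by rw [hx]; positivity
  have hx1 : x ≤ 1 := by
    rw [hx, div_le_one (by positivity)]
    exact one_le_pow₀ (by norm_num)
  have h1 := num_sum_le x hx0 hx1 (a + d) d
  set s : ℝ := ((∑ k ∈ range (d + 1), (a + d).choose k : ℕ) : ℝ) with hs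
  have h4 : (1 + x : ℝ) ≤ (2 : ℝ) ^ (2 * x) := by
    have h5 : (1 + x : ℝ) ≤ Real.exp x := by
      have := Real.add_one_le_exp x
      linarith
    have h6 : Real.exp x ≤ (2 : ℝ) ^ (2 * x) := by
      rw [Real.rpow_def_of_pos (by norm_num)]
      apply Real.exp_le_exp.2
      have := Real.log_two_gt_d9
      nlinarith
    exact h5.trans h6
  have h7 : s ≤ ((2 : ℝ) ^ w) ^ d * (1 + x) ^ (a + d) := by
    have h8 : x ^ d * ((2 : ℝ) ^ w) ^ d = 1 := by
      rw [← mul_pow, hx, one_div, inv_mul_cancel₀ (by positivity), one_pow]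
    calc s = ((2 : ℝ) ^ w) ^ d * (x ^ d * s) := by
          rw [← mul_assoc, mul_comm (((2 : ℝ) ^ w) ^ d), h8, one_mul]
      _ ≤ ((2 : ℝ) ^ w) ^ d * (1 + x) ^ (a + d) :=
          mul_le_mul_of_nonneg_left h1 (by positivity)
  have h9 : ((2 : ℝ) ^ w) ^ d = (2 : ℝ) ^ (((w * d : ℕ) : ℝ)) := by
    rw [Real.rpow_natCast, ← pow_mul]
  have h10 : (1 + x : ℝ) ^ (a + d) ≤ (2 : ℝ) ^ (2 * x * (a + d : ℕ)) := by
    rw [Real.rpow_mul (by norm_num), Real.rpow_natCast]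
    exact pow_le_pow_left₀ (by positivity) h4 _
  have h11 : s ≤ (2 : ℝ) ^ (((w * d : ℕ) : ℝ) + 2 * x * (a + d : ℕ)) := by
    rw [Real.rpow_add (by norm_num), ← h9]
    exact h7.trans (mul_le_mul_of_nonneg_left h10 (by positivity))
  refine h11.trans (Real.rpow_le_rpow_of_exponent_le (by norm_num) ?_)
  have e1 : ((w * d : ℕ) : ℝ) ≤ a / (16 * G) := by
    rw [le_div_iff₀ (by positivity)]
    have : ((16 * G * (w * d) : ℕ) : ℝ) ≤ a := by exact_mod_cast hd'
    push_cast at this ⊢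
    linarith
  have e2 : 2 * x * ((a + d : ℕ) : ℝ) ≤ a / (16 * G) := by
    have h12 : (64 * G : ℝ) ≤ 2 ^ w := by
      rw [hw, pow_add]
      have : (G : ℝ) ≤ 2 ^ G := by exact_mod_cast Nat.lt_two_pow_self.le
      norm_num
      linarith
    have h13 : x ≤ 1 / (64 * G) := by
      rw [hx]
      exact one_div_le_one_div_of_le (by positivity) h12
    have h14 : ((a + d : ℕ) : ℝ) ≤ 2 * a := by
      have : a + d ≤ 2 * a := by omega
      exact_mod_cast this
    calc 2 * x * ((a + d : ℕ) : ℝ) ≤ 2 * (1 / (64 * G)) * (2 * a) := by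
          apply mul_le_mul _ h14 (Nat.cast_nonneg _) (by positivity)
          linarith
      _ = a / (16 * G) := by
          field_simp
          ring
  have e3 : (a : ℝ) / (16 * G) + a / (16 * G) = a / (8 * G) := by
    field_simp
    ring
  linarith

theorem sum_S {D : Type} {m r s : ℕ} (B : Blk D m r s) (e : Bool) (x : Pl m → D)
    (hx : x ∈ B.K) : ∑ v, (B.S e x v).card ≤ r * s := by
  classical
  have h1 : ∀ v, (B.S e x v).card = ∑ j : Fin r, if inj e v ∈ B.Rd j x then 1 else 0 := by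
    intro v
    rw [Blk.S, Finset.card_filter]
  rw [Finset.sum_congr rfl (fun v _ => h1 v), Finset.sum_comm]
  calc ∑ j : Fin r, ∑ v : Fin m, (if inj e v ∈ B.Rd j x then 1 else 0)
      ≤ ∑ _j : Fin r, s := by
        apply sum_le_sum
        intro j _
        refine le_trans ?_ (B.size x hx j)
        rw [← card_filter, ← card_image_of_injective _ (inj_inj e)]
        apply card_le_card
        intro p hp
        obtain ⟨v, hv, rfl⟩ := mem_image.1 hp
        exact (mem_filter.1 hv).2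
    _ = r * s := by simp

theorem card_reads {D : Type} {m r s : ℕ} (B : Blk D m r s) (e : Bool) (x : Pl m → D)
    (hx : x ∈ B.K) (j : Fin r) : (univ.filter (fun v => j ∈ B.S e x v)).card ≤ s := by
  classical
  refine le_trans ?_ (B.size x hx j)
  rw [← card_image_of_injective _ (inj_inj e)]
  apply card_le_card
  intro p hp
  obtain ⟨v, hv, rfl⟩ := mem_image.1 hp
  exact (mem_S B e x v j).1 (mem_filter.1 hv).2

/-- after the choice of the intervals -/
theorem err_le (E a A f1 f2 F1 F2 : ℕ) (hE : 1 ≤ E) (ha : 1 ≤ a) (haA : a ≤ A)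
    (h1 : E * F1 ≤ 18 * A) (h2 : E * F2 ≤ 18 * A) (h : (A / a) * (f1 + f2) ≤ F1 + F2) :
    f1 ≤ 72 * a / E ∧ f2 ≤ 72 * a / E := by
  obtain ⟨p, hp⟩ : ∃ p, p = A / a := ⟨_, rfl⟩
  have hp1 : 1 ≤ p := by rw [hp]; exact (Nat.one_le_div_iff (by omega)).2 haA
  have hA : A ≤ 2 * (p * a) := by
    have h3 : A < a * (p + 1) := by
      rw [hp]
      exact Nat.lt_mul_div_succ A (by omega)
    have h4 : a * (p + 1) ≤ 2 * (p * a) := by nlinarith
    omega
  rw [← hp] at h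
  have h5 : p * (E * (f1 + f2)) ≤ p * (72 * a) := by
    calc p * (E * (f1 + f2)) = E * (p * (f1 + f2)) := by ring
      _ ≤ E * (F1 + F2) := Nat.mul_le_mul_left _ h
      _ = E * F1 + E * F2 := by ring
      _ ≤ 36 * A := by omega
      _ ≤ 36 * (2 * (p * a)) := Nat.mul_le_mul_left _ hA
      _ = p * (72 * a) := by ring
  have h6 : E * (f1 + f2) ≤ 72 * a := Nat.le_of_mul_le_mul_left h5 hp1
  constructor
  · rw [Nat.le_div_iff_mul_le hE]
    nlinarith
  · rw [Nat.le_div_iff_mul_le hE]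
    nlinarith

/-- one input -/
theorem one_input2 (k E : ℕ) (hk : 1 ≤ k) (hE : 1 ≤ E) : ∃ H r : ℕ, 1 ≤ H ∧ 1 ≤ r ∧
    ∀ (D : Type) (m s : ℕ), 1 ≤ m → r * s ≤ k * m → ∀ (B : Blk D m r s) (x : Pl m → D),
    x ∈ B.K → ∃ (c c' : ℕ) (T : Fin r → Fin 3) (u v u' v' a : ℕ), c ≤ 2 * k ∧ c' ≤ 2 * k ∧
      u ≤ m ∧ v ≤ m ∧ u' ≤ m ∧ v' ≤ m ∧ a ≤ m ∧ 2 * m ≤ 3 * H * a ∧
      Typ B T (fun e => if e then c' else c) (fun e => if e then Ivl m u' v' else Ivl m u v)
        a a (72 * a / E) x := by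
  obtain ⟨ℓ, H, hℓ, hH, hsc⟩ := scales2 k E hE
  obtain ⟨r, hr⟩ : ∃ r : ℕ, r = 180 * k ^ 2 * H ^ 2 := ⟨_, rfl⟩
  have hrpos : 0 < r := by rw [hr]; positivity
  refine ⟨H, r, hH, hrpos, ?_⟩
  intro D m s hm hrs B x hx
  obtain ⟨i, c, c', hc, hc', ⟨d1, d2, d3⟩, d1', d2', d3'⟩ := hsc r m (cnt (B.S false x))
    (cnt (B.S true x)) hm (cnt_sum _)
    (by rw [cnt_sum_mul]; exact (sum_S B false x hx).trans hrs) (cnt_sum _)
    (by rw [cnt_sum_mul]; exact (sum_S B true x hx).trans hrs)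
  set q := ℓ ^ (2 * i + 1) with hq
  have hq3 : 3 ≤ q := by
    calc 3 ≤ ℓ := hℓ
      _ = ℓ ^ 1 := (pow_one _).symm
      _ ≤ q := Nat.pow_le_pow_right (by omega) (by omega)
  have hqc : ((ℓ : ℝ) ^ (2 * i + 1)) = (q : ℝ) := by rw [hq]; push_cast; rfl
  rw [hqc] at d1 d2 d3 d1' d2' d3'
  have hmR : (1 : ℝ) ≤ m := by exact_mod_cast hm
  have hHR : (1 : ℝ) ≤ H := by exact_mod_cast hH
  have hER : (0 : ℝ) < E := by exact_mod_cast hE
  have hvar : ∀ (e : Bool) (μ : ℝ), (m : ℝ) ≤ H * μ →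
      180 * ∑ j : Fin r, ((univ.filter (fun v => j ∈ B.S e x v)).card : ℝ) ^ 2 ≤ μ ^ 2 := by
    intro e μ hμ
    have h5 : ∀ j : Fin r, ((univ.filter (fun v => j ∈ B.S e x v)).card : ℝ) ^ 2 ≤
        (s : ℝ) ^ 2 := by
      intro j
      have h7 : ((univ.filter (fun v => j ∈ B.S e x v)).card : ℝ) ≤ s := by
        exact_mod_cast card_reads B e x hx j
      exact pow_le_pow_left₀ (by positivity) h7 2
    have h8 : ∑ j : Fin r, ((univ.filter (fun v => j ∈ B.S e x v)).card : ℝ) ^ 2 ≤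
        r * (s : ℝ) ^ 2 := by
      calc _ ≤ ∑ _j : Fin r, (s : ℝ) ^ 2 := Finset.sum_le_sum fun j _ => h5 j
        _ = r * (s : ℝ) ^ 2 := by simp
    have h9 : ((r : ℝ) * s) ^ 2 ≤ ((k : ℝ) * m) ^ 2 := by
      have : ((r : ℝ) * s) ≤ (k : ℝ) * m := by exact_mod_cast hrs
      exact pow_le_pow_left₀ (by positivity) this 2
    have h10 : (m : ℝ) ^ 2 ≤ ((H : ℝ) * μ) ^ 2 := pow_le_pow_left₀ (by positivity) hμ 2
    have hrR : (r : ℝ) = 180 * (k : ℝ) ^ 2 * (H : ℝ) ^ 2 := by rw [hr]; push_cast; ring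
    have hkR : (1 : ℝ) ≤ k := by exact_mod_cast hk
    have hrR0 : (0 : ℝ) < r := by exact_mod_cast hrpos
    have h11 : (r : ℝ) * (180 * (r * (s : ℝ) ^ 2)) ≤ r * μ ^ 2 := by
      calc (r : ℝ) * (180 * (r * (s : ℝ) ^ 2)) = 180 * ((r : ℝ) * s) ^ 2 := by ring
        _ ≤ 180 * ((k : ℝ) * m) ^ 2 := by linarith
        _ = 180 * (k : ℝ) ^ 2 * (m : ℝ) ^ 2 := by ring
        _ ≤ 180 * (k : ℝ) ^ 2 * ((H : ℝ) * μ) ^ 2 := by
            apply mul_le_mul_of_nonneg_left h10 (by positivity)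
        _ = r * μ ^ 2 := by rw [hrR]; ring
    have h12 := le_of_mul_le_mul_left h11 hrR0
    linarith
  obtain ⟨T, ⟨g1, g2, g3, g4⟩, g1', g2', g3', g4'⟩ := random2 hq3 (B.S false x) (B.S true x)
    (E : ℝ) hER d1 d2 (hvar false _ d3) d1' d2' (hvar true _ d3')
  set μ : ℝ := (cnt (B.S false x) c : ℝ) / (q : ℝ) ^ c with hμ
  set μ' : ℝ := (cnt (B.S true x) c' : ℝ) / (q : ℝ) ^ c' with hμ'
  set C0 := core (B.S false x) T 0 c with hC0
  set C1 := core (B.S true x) T 1 c' with hC1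
  obtain ⟨a, ha⟩ : ∃ a, a = min C0.card C1.card := ⟨_, rfl⟩
  have ha0 : a ≤ C0.card := by rw [ha]; exact min_le_left _ _
  have ha1 : a ≤ C1.card := by rw [ha]; exact min_le_right _ _
  have hb0 : 2 * m ≤ 3 * H * C0.card := by
    have : (2 : ℝ) * m ≤ 3 * H * C0.card := by nlinarith
    exact_mod_cast this
  have hb1 : 2 * m ≤ 3 * H * C1.card := by
    have : (2 : ℝ) * m ≤ 3 * H * C1.card := by nlinarith
    exact_mod_cast this
  have hma : 2 * m ≤ 3 * H * a := by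
    rw [ha]
    rcases min_choice C0.card C1.card with h | h
    · rw [h]; exact hb0
    · rw [h]; exact hb1
  have hapos : 1 ≤ a := by
    rcases Nat.eq_zero_or_pos a with h | h
    · rw [h] at hma; omega
    · exact h
  have ham : a ≤ m := by
    refine ha0.trans ((Finset.card_le_univ _).trans ?_)
    simp
  have hE1 : E * (hat (B.S false x) T 0 \ C0).card ≤ 18 * C0.card := by
    have : (E : ℝ) * ((hat (B.S false x) T 0 \ C0).card : ℝ) ≤ 18 * C0.card := by linarith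
    exact_mod_cast this
  have hE2 : E * (bar (B.S false x) T 0 c \ C0).card ≤ 18 * C0.card := by
    have : (E : ℝ) * ((bar (B.S false x) T 0 c \ C0).card : ℝ) ≤ 18 * C0.card := by linarith
    exact_mod_cast this
  have hE1' : E * (hat (B.S true x) T 1 \ C1).card ≤ 18 * C1.card := by
    have : (E : ℝ) * ((hat (B.S true x) T 1 \ C1).card : ℝ) ≤ 18 * C1.card := by linarith
    exact_mod_cast this
  have hE2' : E * (bar (B.S true x) T 1 c' \ C1).card ≤ 18 * C1.card := by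
    have : (E : ℝ) * ((bar (B.S true x) T 1 c' \ C1).card : ℝ) ≤ 18 * C1.card := by linarith
    exact_mod_cast this
  obtain ⟨u, v, hu, hv, hI, hI2⟩ := cut C0 (hat (B.S false x) T 0 \ C0)
    (bar (B.S false x) T 0 c \ C0) a hapos ha0
  obtain ⟨u', v', hu', hv', hI', hI2'⟩ := cut C1 (hat (B.S true x) T 1 \ C1)
    (bar (B.S true x) T 1 c' \ C1) a hapos ha1
  obtain ⟨k1, k2⟩ := err_le E a _ _ _ _ _ hE hapos ha0 hE1 hE2 hI2
  obtain ⟨k1', k2'⟩ := err_le E a _ _ _ _ _ hE hapos ha1 hE1' hE2' hI2'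
  refine ⟨c, c', T, u, v, u', v', a, hc, hc', hu, hv, hu', hv', ham, hma, ?_, ?_, ?_⟩
  · exact hI
  · exact hI'
  · have hinter : ∀ X C I : Finset (Fin m), (X ∩ I) \ (C ∩ I) = (X \ C) ∩ I := by
      intro X C I
      ext p
      simp only [mem_sdiff, mem_inter]
      tauto
    intro e
    cases e
    · constructor
      · show ((hat (B.S false x) T 0 ∩ Ivl m u v) \ (C0 ∩ Ivl m u v)).card ≤ _
        rw [hinter]; exact k1
      · show ((bar (B.S false x) T 0 c ∩ Ivl m u v) \ (C0 ∩ Ivl m u v)).card ≤ _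
        rw [hinter]; exact k2
    · constructor
      · show ((hat (B.S true x) T 1 ∩ Ivl m u' v') \ (C1 ∩ Ivl m u' v')).card ≤ _
        rw [hinter]; exact k1'
      · show ((bar (B.S true x) T 1 c' ∩ Ivl m u' v') \ (C1 ∩ Ivl m u' v')).card ≤ _
        rw [hinter]; exact k2'

end Pool.Agent.K7.H45.LL
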