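import Pool.Agent.K7.H45.LL.Two

/-!
# Deterministic branching programs over an alphabet
-/

set_option autoImplicit false

open Finset

namespace Pool.Agent.K7.H45.LL

/-- A deterministic branching program which reads letters of `L` at places of `I`: a node either
reads a place and moves on according to the letter, or it is a sink which carries an answer. -/
structure Prog (I L : Type) where
  /-- the nodes -/
  State : Type
  [fin : Fintype State]
  /-- the first node -/
  start : State
  /-- the place which is read and the next node, or the answer -/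
  node : State → (I × (L → State)) ⊕ Bool

attribute [instance] Prog.fin

/-- one step of the computation on `x` -/
def Prog.step {I L : Type} (P : Prog I L) (x : I → L) (v : P.State) : P.State :=
  match P.node v with
  | Sum.inl a => a.2 (x a.1)
  | Sum.inr _ => v

/-- the node reached from the first one after `t` steps on the input `x` -/
def Prog.run {I L : Type} (P : Prog I L) (x : I → L) (t : ℕ) : P.State := (P.step x)^[t] P.start

/-- on the input `x` the program gives the answer `b` after at most `t` readings -/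
def Prog.Answers {I L : Type} (P : Prog I L) (x : I → L) (b : Bool) (t : ℕ) : Prop :=
  P.node (P.run x t) = Sum.inr b

section

variable {I L D : Type} {m : ℕ} (P : Prog I L) (enc : (Pl m → D) → I → L) (loc : I → Option (Pl m))

/-- `t` steps -/
def it (x : I → L) (v : P.State) (t : ℕ) : P.State := (P.step x)^[t] v

/-- the places read in `t` steps -/
def rd (x : Pl m → D) : P.State → ℕ → Finset (Pl m)
  | _, 0 => ∅
  | v, t + 1 =>
    match P.node v with
    | Sum.inl a => (loc a.1).toFinset ∪ rd x (a.2 (enc x a.1)) t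
    | Sum.inr _ => ∅

theorem step_inl (x : I → L) {v : P.State} {a : I × (L → P.State)}
    (h : P.node v = Sum.inl a) : P.step x v = a.2 (x a.1) := by
  unfold Prog.step; rw [h]

theorem step_inr (x : I → L) {v : P.State} {b : Bool} (h : P.node v = Sum.inr b) :
    P.step x v = v := by
  unfold Prog.step; rw [h]

theorem it_zero (x : I → L) (v : P.State) : it P x v 0 = v := rfl

theorem it_succ (x : I → L) (v : P.State) (t : ℕ) :
    it P x v (t + 1) = it P x (P.step x v) t := by
  unfold it; rw [Function.iterate_succ_apply]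

theorem it_add (x : I → L) (v : P.State) (a b : ℕ) :
    it P x v (a + b) = it P x (it P x v a) b := by
  unfold it; rw [add_comm a b, Function.iterate_add_apply]

theorem it_sink (x : I → L) {v : P.State} {b : Bool} (h : P.node v = Sum.inr b) (t : ℕ) :
    it P x v t = v := by
  induction t with
  | zero => rfl
  | succ t ih => rw [it_succ, step_inr P x h, ih]

theorem answers_mono {x : I → L} {b : Bool} {t t' : ℕ} (h : P.Answers x b t) (ht : t ≤ t') :
    P.Answers x b t' := by
  obtain ⟨u, rfl⟩ := Nat.exists_eq_add_of_le ht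
  have h1 : P.run x (t + u) = P.run x t := by
    show it P x P.start (t + u) = _
    rw [it_add]
    exact it_sink P x h u
  unfold Prog.Answers
  rw [h1]
  exact h

theorem rd_inl (x : Pl m → D) {v : P.State} {a : I × (L → P.State)}
    (h : P.node v = Sum.inl a) (t : ℕ) :
    rd P enc loc x v (t + 1) = (loc a.1).toFinset ∪ rd P enc loc x (a.2 (enc x a.1)) t := by
  rw [rd, h]

theorem rd_inr (x : Pl m → D) {v : P.State} {b : Bool} (h : P.node v = Sum.inr b) (t : ℕ) :
    rd P enc loc x v t = ∅ := by
  cases t with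
  | zero => rw [rd]
  | succ t => rw [rd, h]

theorem card_rd (x : Pl m → D) (v : P.State) (t : ℕ) : (rd P enc loc x v t).card ≤ t := by
  induction t generalizing v with
  | zero => rw [rd]; simp
  | succ t ih =>
    rcases hv : P.node v with a | b
    · rw [rd_inl P enc loc x hv]
      refine (Finset.card_union_le _ _).trans ?_
      have h1 : (loc a.1).toFinset.card ≤ 1 := by
        rcases loc a.1 with _ | p <;> simp
      have h2 := ih (a.2 (enc x a.1))
      omega
    · rw [rd_inr P enc loc x hv]; simp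

variable (hloc : ∀ (z z' : Pl m → D) (i : I), (∀ p ∈ loc i, z p = z' p) → enc z i = enc z' i)

include hloc in
theorem agree (x z : Pl m → D) (t : ℕ) (v : P.State)
    (h : ∀ p ∈ rd P enc loc x v t, z p = x p) :
    rd P enc loc z v t = rd P enc loc x v t ∧ it P (enc z) v t = it P (enc x) v t := by
  induction t generalizing v with
  | zero => exact ⟨by rw [rd, rd], rfl⟩
  | succ t ih =>
    rcases hv : P.node v with a | b
    · rw [rd_inl P enc loc x hv] at h
      have h1 : enc z a.1 = enc x a.1 := hloc z x a.1 fun p hp => h p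
        (Finset.mem_union_left _ (Option.mem_toFinset.2 hp))
      have h2 := ih (a.2 (enc x a.1)) fun i hi => h i (Finset.mem_union_right _ hi)
      rw [rd_inl P enc loc x hv, rd_inl P enc loc z hv, it_succ, it_succ, step_inl P (enc x) hv,
        step_inl P (enc z) hv, h1, h2.1, h2.2]
      exact ⟨rfl, rfl⟩
    · rw [rd_inr P enc loc x hv, rd_inr P enc loc z hv, it_sink P (enc x) hv,
        it_sink P (enc z) hv]
      exact ⟨rfl, rfl⟩

include hloc in
open Classical in
/-- the blocks of a class -/
theorem blk_of [Fintype D] (r s : ℕ) (κ : Fin (r + 1) → P.State) (h0 : κ 0 = P.start) :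
    ∃ B : Blk D m r s, ∀ x : Pl m → D,
      x ∈ B.K ↔ ∀ j : Fin (r + 1), it P (enc x) P.start (j * s) = κ j := by
  refine ⟨{
    K := univ.filter fun x : Pl m → D => ∀ j : Fin (r + 1), it P (enc x) P.start (j * s) = κ j
    Rd := fun j x => rd P enc loc x (κ j.castSucc) s
    size := fun x _ j => card_rd P enc loc x _ s
    det := ?_
    splice := ?_ }, ?_⟩
  · intro x _ y _ j hxy
    have h1 := agree P enc loc hloc x (fun i => if i ∈ rd P enc loc x (κ j.castSucc) s then x i
      else y i) s (κ j.castSucc) (by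
        intro i hi
        simp only [if_pos hi])
    have h2 := agree P enc loc hloc y (fun i => if i ∈ rd P enc loc x (κ j.castSucc) s then x i
      else y i) s (κ j.castSucc) (by
        intro i hi
        by_cases hi2 : i ∈ rd P enc loc x (κ j.castSucc) s
        · simp only [if_pos hi2]
          exact hxy i hi2 hi
        · simp only [if_neg hi2])
    rw [← h1.1, ← h2.1]
  · intro X hX z hz
    have hag : ∀ j : Fin r, rd P enc loc z (κ j.castSucc) s =
        rd P enc loc (X j) (κ j.castSucc) s ∧
        it P (enc z) (κ j.castSucc) s = it P (enc (X j)) (κ j.castSucc) s :=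
      fun j => agree P enc loc hloc (X j) z s _ (hz j)
    have hit : ∀ j : ℕ, ∀ hj : j < r + 1, it P (enc z) P.start (j * s) = κ ⟨j, hj⟩ := by
      intro j
      induction j with
      | zero =>
        intro hj
        rw [zero_mul, it_zero]
        exact h0.symm
      | succ j ih =>
        intro hj
        have hj' : j < r := by omega
        have h1 := ih (by omega)
        have h2 := (Finset.mem_filter.1 (hX ⟨j, hj'⟩)).2
        have h3 := h2 (Fin.castSucc ⟨j, hj'⟩)
        have h4 := h2 (Fin.succ ⟨j, hj'⟩)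
        have h5 := (hag ⟨j, hj'⟩).2
        rw [add_mul, one_mul, it_add, h1]
        change it P (enc z) (κ (Fin.castSucc ⟨j, hj'⟩)) s = κ (Fin.succ ⟨j, hj'⟩)
        rw [h5]
        conv_lhs => rw [← h3]
        rw [← it_add, ← h4]
        congr 1
        simp [add_mul]
    refine ⟨?_, fun j => (hag j).1⟩
    rw [Finset.mem_filter]
    exact ⟨Finset.mem_univ _, fun j => hit j j.2⟩
  · intro x
    simp

include hloc in
open Classical in
/-- L1: blocks of a program -/
theorem blocks_of [Fintype D] (r s : ℕ) (W : Finset (Pl m → D)) (hn : W.Nonempty) (b : Bool)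
    (hW : ∀ x ∈ W, P.Answers (enc x) b (r * s)) :
    ∃ (B : Blk D m r s) (V : Finset (Pl m → D)), V ⊆ B.K ∧ V ⊆ W ∧
      W.card ≤ Fintype.card P.State ^ (r + 1) * V.card ∧
      ∀ x ∈ B.K, P.Answers (enc x) b (r * s) := by
  let cls : (Pl m → D) → (Fin (r + 1) → P.State) := fun x j => it P (enc x) P.start (j * s)
  obtain ⟨κ, _, hκ⟩ := Finset.exists_max_image (univ : Finset (Fin (r + 1) → P.State))
    (fun κ => (W.filter fun x => cls x = κ).card) ⟨fun _ => P.start, Finset.mem_univ _⟩
  have h1 : W.card = ∑ κ' : Fin (r + 1) → P.State, (W.filter fun x => cls x = κ').card :=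
    Finset.card_eq_sum_card_fiberwise fun x _ => Finset.mem_univ _
  have h2 : W.card ≤ Fintype.card P.State ^ (r + 1) * (W.filter fun x => cls x = κ).card := by
    rw [h1]
    refine (Finset.sum_le_card_nsmul _ _ _ hκ).trans (le_of_eq ?_)
    rw [Finset.card_univ, smul_eq_mul, Fintype.card_fun, Fintype.card_fin]
  have hne : (W.filter fun x => cls x = κ).Nonempty := by
    rw [← Finset.card_pos]
    by_contra h3
    have h4 : (W.filter fun x => cls x = κ).card = 0 := by omega
    rw [h4, mul_zero] at h2
    have := Finset.card_pos.2 hn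
    omega
  obtain ⟨x0, hx0⟩ := hne
  obtain ⟨hx0W, hx0c⟩ := Finset.mem_filter.1 hx0
  have h0 : κ 0 = P.start := by
    rw [← hx0c]
    change it P (enc x0) P.start (((0 : Fin (r + 1)) : ℕ) * s) = _
    rw [Fin.val_zero, zero_mul, it_zero]
  have hlast : P.node (κ (Fin.last r)) = Sum.inr b := by
    rw [← hx0c]
    change P.node (it P (enc x0) P.start (((Fin.last r : Fin (r + 1)) : ℕ) * s)) = _
    rw [Fin.val_last]
    exact hW x0 hx0W
  obtain ⟨B, hB⟩ := blk_of P enc loc hloc r s κ h0
  refine ⟨B, W.filter fun x => cls x = κ, ?_, Finset.filter_subset _ _, h2, ?_⟩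
  · intro x hx
    rw [hB]
    intro j
    exact congrFun (Finset.mem_filter.1 hx).2 j
  · intro x hx
    have h3 := (hB x).1 hx (Fin.last r)
    rw [Fin.val_last] at h3
    show P.node (it P (enc x) P.start (r * s)) = _
    rw [h3]
    exact hlast

end

/-- **Rectangles in the set of the inputs with a given answer.** -/
theorem rect_prog (k G : ℕ) (hG : 1 ≤ G) : ∃ Q : ℕ, 0 < Q ∧
    ∀ (I L D : Type) [Fintype D] [Nonempty D] (m : ℕ) (P : Prog I L)
      (enc : (Pl m → D) → I → L) (loc : I → Option (Pl m)),
    (∀ (z z' : Pl m → D) (i : I), (∀ p ∈ loc i, z p = z' p) → enc z i = enc z' i) → Q ≤ m →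
    Fintype.card P.State ≤ 2 ^ (m / Q) → ∀ (b : Bool) (W : Finset (Pl m → D)),
    (∀ x ∈ W, P.Answers (enc x) b (k * m)) →
    Fintype.card D ^ (m + m) < 2 ^ (m / Q) * W.card →
    ∃ (a g : ℕ) (K : Finset (Pl m → D)), m ≤ Q * a ∧ G * g ≤ a ∧ a ≤ m ∧
      (∀ x ∈ K, ∃ t, P.Answers (enc x) b t) ∧ Nonempty (Rect K W (Fintype.card D) a a g) := by
  obtain ⟨Q, r, N, hQ, hr, hN, h⟩ := main2 (k + 1) G (by omega) hG
  obtain ⟨Q', hQ'⟩ : ∃ Q', Q' = N * (r + 2) * (Q + r) := ⟨_, rfl⟩
  have hQQ : Q ≤ Q' := by
    rw [hQ']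
    calc Q = 1 * 1 * Q := by ring
      _ ≤ N * (r + 2) * (Q + r) := Nat.mul_le_mul (Nat.mul_le_mul hN (by omega)) (by omega)
  have hrQ : r ≤ Q' := by
    rw [hQ']
    calc r = 1 * 1 * r := by ring
      _ ≤ N * (r + 2) * (Q + r) := Nat.mul_le_mul (Nat.mul_le_mul hN (by omega)) (by omega)
  have hNQ : N ≤ Q' := by
    rw [hQ']
    calc N = N * 1 * 1 := by ring
      _ ≤ N * (r + 2) * (Q + r) := Nat.mul_le_mul (Nat.mul_le_mul le_rfl (by omega)) (by omega)
  refine ⟨Q', by omega, ?_⟩
  intro I L D _ _ m P enc loc hloc hm hst b W hW hcard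
  have hne : W.Nonempty := by
    rw [← Finset.card_pos]
    rcases Nat.eq_zero_or_pos W.card with h0 | h0
    · rw [h0, mul_zero] at hcard
      omega
    · exact h0
  obtain ⟨s, hs⟩ : ∃ s, s = k * m / r + 1 := ⟨_, rfl⟩
  have hs1 : k * m ≤ r * s := by
    rw [hs]
    exact (Nat.lt_mul_div_succ _ hr).le
  have hs2 : r * s ≤ (k + 1) * m := by
    rw [hs, mul_add, mul_one, add_mul, one_mul]
    have := Nat.mul_div_le (k * m) r
    omega
  obtain ⟨B, V, hVB, hVW, hV, hB⟩ := blocks_of P enc loc hloc r s W hne b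
    (fun x hx => answers_mono P (hW x hx) hs1)
  obtain ⟨q, hq⟩ : ∃ q, q = Fintype.card D := ⟨_, rfl⟩
  rw [← hq] at hcard ⊢
  have hVc : q ^ (m + m) ≤ 2 ^ (m / N) * V.card := by
    have h1 : Fintype.card P.State ^ (r + 1) ≤ (2 ^ (m / Q')) ^ (r + 1) :=
      Nat.pow_le_pow_left hst _
    have h2 : (m / Q') * (r + 2) ≤ m / N := by
      have h3 : m / Q' ≤ m / (N * (r + 2)) := by
        apply Nat.div_le_div_left _ (Nat.mul_pos hN (by omega))
        rw [hQ']
        exact Nat.le_mul_of_pos_right _ (by omega)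
      calc (m / Q') * (r + 2) ≤ (m / (N * (r + 2))) * (r + 2) := Nat.mul_le_mul_right _ h3
        _ = (m / N / (r + 2)) * (r + 2) := by rw [Nat.div_div_eq_div_mul]
        _ ≤ m / N := Nat.div_mul_le_self _ _
    calc q ^ (m + m) ≤ 2 ^ (m / Q') * W.card := hcard.le
      _ ≤ 2 ^ (m / Q') * (Fintype.card P.State ^ (r + 1) * V.card) := Nat.mul_le_mul_left _ hV
      _ ≤ 2 ^ (m / Q') * ((2 ^ (m / Q')) ^ (r + 1) * V.card) :=
          Nat.mul_le_mul_left _ (Nat.mul_le_mul_right _ h1)
      _ = 2 ^ ((m / Q') * (r + 2)) * V.card := by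
          rw [← mul_assoc, ← pow_mul, ← pow_add]
          congr 2
          ring
      _ ≤ 2 ^ (m / N) * V.card :=
          Nat.mul_le_mul_right _ (Nat.pow_le_pow_right (by norm_num) h2)
  obtain ⟨a, g, ha1, ha2, ha3, ⟨R⟩⟩ := h D m (hNQ.trans hm) s hs2 B V hVB (by rw [← hq]; exact hVc)
  refine ⟨a, g, B.K, ha1.trans (Nat.mul_le_mul_right _ hQQ), ha2, ha3,
    fun x hx => ⟨_, hB x hx⟩, ⟨{ R with nX := ?_, nY := ?_, mX := ?_, mY := ?_ }⟩⟩
  · rw [hq]; exact R.nX
  · rw [hq]; exact R.nY
  · exact fun x hx => hVW (R.mX x hx)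
  · exact fun y hy => hVW (R.mY y hy)

end Pool.Agent.K7.H45.LL
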