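import Pool.Agent.H554R2.Lin.Scales

/-!
# Deterministic programs of linear length: a common scale for the two halves of the input
-/

set_option autoImplicit false

open Finset

namespace Pool.Agent.K7.H45.LL

open Pool.Agent.H554R2.Lin (V3_const)

/-- a frequent number of occurrences -/
theorem freq (k r n : ℕ) (N : ℕ → ℕ) (hn : 1 ≤ n)
    (h1 : ∑ t ∈ range (r + 1), N t = n) (h2 : ∑ t ∈ range (r + 1), t * N t ≤ k * n) :
    ∃ t, t ≤ 2 * k ∧ t ≤ r ∧ n ≤ 2 * (2 * k + 1) * N t := by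
  by_contra hcon
  push Not at hcon
  have e1 : 2 * (2 * k + 1) * ∑ t ∈ range (r + 1), (if t ≤ 2 * k then N t else 0) ≤
      (2 * k + 1) * (n - 1) := by
    rw [Finset.mul_sum]
    calc ∑ t ∈ range (r + 1), 2 * (2 * k + 1) * (if t ≤ 2 * k then N t else 0)
        ≤ ∑ t ∈ range (r + 1), (if t ≤ 2 * k then n - 1 else 0) := by
          apply Finset.sum_le_sum
          intro t ht
          rw [Finset.mem_range] at ht
          by_cases h : t ≤ 2 * k
          · rw [if_pos h, if_pos h]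
            have := hcon t h (by omega)
            omega
          · rw [if_neg h, if_neg h, mul_zero]
      _ = ((range (r + 1)).filter fun t => t ≤ 2 * k).card * (n - 1) := by
          rw [← Finset.sum_filter, Finset.sum_const, smul_eq_mul]
      _ ≤ (2 * k + 1) * (n - 1) := by
          apply Nat.mul_le_mul_right
          have : ((range (r + 1)).filter fun t => t ≤ 2 * k) ⊆ range (2 * k + 1) := by
            intro t ht
            rw [Finset.mem_filter] at ht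
            exact Finset.mem_range.2 (by omega)
          have h5 := Finset.card_le_card this
          rw [card_range] at h5
          exact h5
  have e2 : (2 * k + 1) * ∑ t ∈ range (r + 1), (if 2 * k < t then N t else 0) ≤ k * n := by
    refine le_trans ?_ h2
    rw [Finset.mul_sum]
    apply Finset.sum_le_sum
    intro t _
    by_cases h : 2 * k < t
    · rw [if_pos h]
      exact Nat.mul_le_mul_right _ h
    · rw [if_neg h, mul_zero]
      exact Nat.zero_le _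
  have e3 : n = (∑ t ∈ range (r + 1), (if t ≤ 2 * k then N t else 0)) +
      ∑ t ∈ range (r + 1), (if 2 * k < t then N t else 0) := by
    rw [← Finset.sum_add_distrib]
    conv_lhs => rw [← h1]
    apply Finset.sum_congr rfl
    intro t _
    by_cases ht1 : t ≤ 2 * k
    · rw [if_pos ht1, if_neg (by omega)]; omega
    · rw [if_neg ht1, if_pos (by omega)]; omega
  set A1 := ∑ t ∈ range (r + 1), (if t ≤ 2 * k then N t else 0)
  set A2 := ∑ t ∈ range (r + 1), (if 2 * k < t then N t else 0)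
  have f1 : 2 * A1 ≤ n - 1 := by
    have : (2 * k + 1) * (2 * A1) ≤ (2 * k + 1) * (n - 1) := by
      calc (2 * k + 1) * (2 * A1) = 2 * (2 * k + 1) * A1 := by ring
        _ ≤ (2 * k + 1) * (n - 1) := e1
    exact Nat.le_of_mul_le_mul_left this (by omega)
  have f2 : 2 * A2 < n := by
    by_contra hge
    push Not at hge
    have h6 : (2 * k + 1) * n ≤ (2 * k + 1) * (2 * A2) := Nat.mul_le_mul_left _ hge
    have h7 : (2 * k + 1) * (2 * A2) = 2 * ((2 * k + 1) * A2) := by ring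
    have h8 : (2 * k + 1) * n = 2 * (k * n) + n := by ring
    omega
  omega

/-- the maximizers -/
theorem maxes (k r n : ℕ) (N : ℕ → ℕ) (hn : 1 ≤ n) (L : ℝ) (hL : 2 ≤ L)
    (h1 : ∑ t ∈ range (r + 1), N t = n) (h2 : ∑ t ∈ range (r + 1), t * N t ≤ k * n) :
    ∃ c : ℕ → ℕ, (∀ i, c i ≤ 2 * k ∧ c i ≤ r ∧ ∀ t ≤ 2 * k, t ≤ r →
      (N t : ℝ) / (L ^ (2 * i)) ^ t ≤ (N (c i) : ℝ) / (L ^ (2 * i)) ^ (c i)) ∧
      ∀ i, c (i + 1) ≤ c i := by
  obtain ⟨t0, ht2, ht3, ht4⟩ := freq k r n N hn h1 h2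
  have hL0 : 0 < L := by linarith
  set J : Finset ℕ := (range (2 * k + 1)).filter (· ≤ r) with hJ
  have hmemJ : ∀ t, t ∈ J ↔ t ≤ 2 * k ∧ t ≤ r := by
    intro t
    rw [hJ, Finset.mem_filter, Finset.mem_range, Nat.lt_succ_iff]
  have hJne : J.Nonempty := ⟨t0, (hmemJ t0).2 ⟨ht2, ht3⟩⟩
  have hmax : ∀ i : ℕ, ∃ c ∈ J, ∀ t ∈ J,
      (N t : ℝ) / (L ^ (2 * i)) ^ t ≤ (N c : ℝ) / (L ^ (2 * i)) ^ c := fun i =>
    Finset.exists_max_image J (fun t => (N t : ℝ) / (L ^ (2 * i)) ^ t) hJne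
  choose c hcJ hcmax using hmax
  have ht0pos : (0 : ℝ) < N t0 := by
    have : 0 < N t0 := by
      rcases Nat.eq_zero_or_pos (N t0) with h | h
      · rw [h] at ht4; omega
      · exact h
    exact_mod_cast this
  have hpos : ∀ i, 0 < (N (c i) : ℝ) / (L ^ (2 * i)) ^ (c i) := by
    intro i
    refine lt_of_lt_of_le ?_ (hcmax i t0 ((hmemJ t0).2 ⟨ht2, ht3⟩))
    positivity
  have hsplit : ∀ i t : ℕ, (N t : ℝ) / (L ^ (2 * (i + 1))) ^ t =
      (N t : ℝ) / (L ^ (2 * i)) ^ t / L ^ (2 * t) := by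
    intro i t
    rw [div_div]
    congr 1
    rw [← pow_mul, ← pow_mul, ← pow_add]
    congr 1
    ring
  refine ⟨c, fun i => ⟨((hmemJ _).1 (hcJ i)).1, ((hmemJ _).1 (hcJ i)).2, fun t ht ht' =>
    hcmax i t ((hmemJ t).2 ⟨ht, ht'⟩)⟩, ?_⟩
  intro i
  by_contra hlt
  push Not at hlt
  have h1 := hcmax i (c (i + 1)) (hcJ (i + 1))
  have h2 := hcmax (i + 1) (c i) (hcJ i)
  rw [hsplit, hsplit] at h2
  have h3 : (N (c (i + 1)) : ℝ) / (L ^ (2 * i)) ^ c (i + 1) / L ^ (2 * c (i + 1)) ≤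
      (N (c i) : ℝ) / (L ^ (2 * i)) ^ c i / L ^ (2 * c (i + 1)) :=
    div_le_div_of_nonneg_right h1 (by positivity)
  have h4 : (N (c i) : ℝ) / (L ^ (2 * i)) ^ c i / L ^ (2 * c (i + 1)) <
      (N (c i) : ℝ) / (L ^ (2 * i)) ^ c i / L ^ (2 * c i) := by
    apply div_lt_div_of_pos_left (hpos i) (by positivity)
    exact pow_lt_pow_right₀ (by linarith) (by omega)
  linarith

/-- the conclusions for one sequence -/
def Dom (E H r n : ℕ) (N : ℕ → ℕ) (q : ℝ) (c : ℕ) : Prop :=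
  (E : ℝ) * ∑ t ∈ (range (r + 1)).erase c, (N t : ℝ) / q ^ t ≤ (N c : ℝ) / q ^ c ∧
  (E : ℝ) * ∑ t ∈ (range (r + 1)).filter (fun t => c < t),
    (N t : ℝ) * t.choose c / q ^ t ≤ (N c : ℝ) / q ^ c ∧
  (n : ℝ) ≤ H * ((N c : ℝ) / q ^ c)

theorem scale_at (k E ℓ i : ℕ) (hE : 1 ≤ E) (hℓ : ℓ = 2 ^ (2 * k + 6) * ((2 * k + 1) * E))
    (hi : i < 4 * k + 1) (r n : ℕ) (N : ℕ → ℕ) (hn : 1 ≤ n)
    (hsum : ∑ t ∈ range (r + 1), N t = n) (hsum2 : ∑ t ∈ range (r + 1), t * N t ≤ k * n)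
    (cc : ℕ) (hc2 : cc ≤ 2 * k)
    (hm1 : ∀ t ≤ 2 * k, t ≤ r → (N t : ℝ) / (((ℓ : ℝ)) ^ (2 * i)) ^ t ≤
      (N cc : ℝ) / (((ℓ : ℝ)) ^ (2 * i)) ^ cc)
    (hm2 : ∀ t ≤ 2 * k, t ≤ r → (N t : ℝ) / (((ℓ : ℝ)) ^ (2 * (i + 1))) ^ t ≤
      (N cc : ℝ) / (((ℓ : ℝ)) ^ (2 * (i + 1))) ^ cc) :
    Dom E (2 * (2 * k + 1) * ℓ ^ ((8 * k + 1) * (2 * k))) r n N ((ℓ : ℝ) ^ (2 * i + 1)) cc := by
  obtain ⟨t0, ht2, ht3, ht4⟩ := freq k r n N hn hsum hsum2
  obtain ⟨L, hL⟩ : ∃ L : ℝ, L = (ℓ : ℝ) := ⟨_, rfl⟩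
  rw [← hL] at hm1 hm2
  have hEr : (1 : ℝ) ≤ E := by exact_mod_cast hE
  have hkr : (0 : ℝ) ≤ k := Nat.cast_nonneg _
  have h2k : (1 : ℝ) ≤ 2 ^ (2 * k) := one_le_pow₀ (by norm_num)
  have hLe : (64 : ℝ) * 2 ^ (2 * k) * ((2 * k + 1) * E) = L := by
    rw [hL, hℓ, pow_add]; push_cast; ring
  have hkE : (1 : ℝ) ≤ (2 * k + 1) * E := by nlinarith
  have hL64 : (64 : ℝ) ≤ L := by
    rw [← hLe]
    nlinarith [mul_le_mul h2k hkE (by norm_num) (by positivity)]
  have hL0 : 0 < L := by linarith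
  have hL1 : 1 ≤ L := by linarith
  have hnr : (0 : ℝ) < n := by exact_mod_cast hn
  have ht0N : (n : ℝ) / (2 * (2 * k + 1)) ≤ N t0 := by
    rw [div_le_iff₀ (by positivity)]
    have : (n : ℝ) ≤ 2 * (2 * k + 1) * N t0 := by exact_mod_cast ht4
    linarith
  have ht0pos : (0 : ℝ) < N t0 := lt_of_lt_of_le (by positivity) ht0N
  have hp : 0 < (N cc : ℝ) / (L ^ (2 * i)) ^ cc := by
    refine lt_of_lt_of_le ?_ (hm1 t0 ht2 ht3)
    positivity
  unfold Dom
  rw [← hL]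
  set q : ℝ := L ^ (2 * i + 1) with hq
  set μ : ℝ := (N cc : ℝ) / q ^ cc with hμ
  have hq0 : 0 < q := by positivity
  have hqL : L ≤ q := by
    rw [hq, pow_succ]
    exact le_mul_of_one_le_left hL0.le (one_le_pow₀ hL1)
  have hqt : ∀ t : ℕ, q ^ t = (L ^ (2 * i)) ^ t * L ^ t := by
    intro t
    rw [hq, pow_succ, mul_pow]
  have hqt2 : ∀ t : ℕ, (L ^ (2 * (i + 1))) ^ t = q ^ t * L ^ t := by
    intro t
    rw [hq, ← mul_pow]
    congr 1
  have hμpos : 0 < μ := by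
    rw [hμ, hqt, ← div_div]
    positivity
  -- small `t`
  have hsmall : ∀ t ≤ 2 * k, t ≤ r → t ≠ cc → (N t : ℝ) / q ^ t ≤ μ / L := by
    intro t ht ht' hne
    rcases lt_or_gt_of_ne hne with h | h
    · have h1 := hm2 t ht ht'
      rw [hqt2, hqt2, ← div_div, ← div_div] at h1
      have h2 : (N t : ℝ) / q ^ t ≤ μ / L ^ cc * L ^ t := by
        rw [div_le_iff₀ (by positivity)] at h1
        exact h1
      refine h2.trans ?_
      obtain ⟨j, hj⟩ : ∃ j, cc = t + (j + 1) := ⟨cc - t - 1, by omega⟩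
      have h3 : μ / L ^ cc * L ^ t = μ / (L ^ j * L) := by
        rw [hj, pow_add, pow_succ]
        field_simp
      rw [h3]
      apply div_le_div_of_nonneg_left hμpos.le hL0
      exact le_mul_of_one_le_left hL0.le (one_le_pow₀ hL1)
    · have h1 := hm1 t ht ht'
      have h2 : (N t : ℝ) / q ^ t ≤ μ * L ^ cc / L ^ t := by
        rw [hqt, ← div_div]
        apply div_le_div_of_nonneg_right _ (by positivity)
        refine h1.trans (le_of_eq ?_)
        rw [hμ, hqt]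
        field_simp
      refine h2.trans ?_
      obtain ⟨j, hj⟩ : ∃ j, t = cc + (j + 1) := ⟨t - cc - 1, by omega⟩
      have h3 : μ * L ^ cc / L ^ t = μ / (L ^ j * L) := by
        rw [hj, pow_add, pow_succ]
        field_simp
      rw [h3]
      apply div_le_div_of_nonneg_left hμpos.le hL0
      exact le_mul_of_one_le_left hL0.le (one_le_pow₀ hL1)
  -- lower bound for `μ`
  have hnμ : (n : ℝ) ≤ 2 * (2 * k + 1) * q ^ (2 * k) * μ := by
    have h1 := hm1 t0 ht2 ht3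
    have h2 : (n : ℝ) / (2 * (2 * k + 1)) / (L ^ (2 * i)) ^ (2 * k) ≤
        (N cc : ℝ) / (L ^ (2 * i)) ^ cc := by
      refine le_trans ?_ h1
      apply div_le_div₀ ht0pos.le ht0N (by positivity)
      exact pow_le_pow_right₀ (one_le_pow₀ hL1) ht2
    have h3 : μ = (N cc : ℝ) / (L ^ (2 * i)) ^ cc / L ^ cc := by rw [hμ, hqt, ← div_div]
    have h4 : (n : ℝ) / (2 * (2 * k + 1)) / (L ^ (2 * i)) ^ (2 * k) / L ^ (2 * k) ≤ μ := by
      rw [h3]
      apply div_le_div₀ hp.le h2 (by positivity)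
      exact pow_le_pow_right₀ hL1 hc2
    rw [div_div, div_div, div_le_iff₀ (by positivity)] at h4
    rw [hqt]
    calc (n : ℝ) ≤ μ * (2 * (2 * k + 1) * ((L ^ (2 * i)) ^ (2 * k) * L ^ (2 * k))) := h4
      _ = _ := by ring
  have hsumr : ∑ t ∈ range (r + 1), (N t : ℝ) = n := by
    rw [← hsum]; push_cast; rfl
  have hcardJ : (((range (r + 1)).filter fun t => t ≤ 2 * k).card : ℝ) ≤ 2 * k + 1 := by
    have : ((range (r + 1)).filter fun t => t ≤ 2 * k) ⊆ range (2 * k + 1) := by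
      intro t ht
      rw [Finset.mem_filter] at ht
      exact Finset.mem_range.2 (by omega)
    have h5 := Finset.card_le_card this
    rw [card_range] at h5
    exact_mod_cast h5
  have hsumJ : ∀ w : ℝ, 0 ≤ w →
      ∑ t ∈ range (r + 1), (if t ≤ 2 * k then w else 0) ≤ (2 * k + 1) * w := by
    intro w hw
    rw [← Finset.sum_filter, Finset.sum_const, nsmul_eq_mul]
    exact mul_le_mul_of_nonneg_right hcardJ hw
  have hqk : q ^ (2 * k) ≤ L ^ ((8 * k + 1) * (2 * k)) := by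
    rw [hq, ← pow_mul]
    apply pow_le_pow_right₀ hL1
    exact Nat.mul_le_mul_right _ (by omega)
  have hnq : (n : ℝ) / q ^ (2 * k + 1) ≤ 2 * (2 * k + 1) * μ / L := by
    rw [div_le_div_iff₀ (by positivity) hL0, pow_succ]
    calc (n : ℝ) * L ≤ (2 * (2 * k + 1) * q ^ (2 * k) * μ) * q :=
          mul_le_mul hnμ hqL hL0.le (by positivity)
      _ = 2 * (2 * k + 1) * μ * (q ^ (2 * k) * q) := by ring
  refine ⟨?_, ?_, ?_⟩
  · -- first sum
    have hb : ∀ t ∈ (range (r + 1)).erase cc, (N t : ℝ) / q ^ t ≤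
        (if t ≤ 2 * k then μ / L else 0) + (N t : ℝ) / q ^ (2 * k + 1) := by
      intro t ht
      obtain ⟨hne, htr⟩ := Finset.mem_erase.1 ht
      rw [Finset.mem_range] at htr
      have hx : (0 : ℝ) ≤ (N t : ℝ) / q ^ (2 * k + 1) := by positivity
      by_cases h1 : t ≤ 2 * k
      · rw [if_pos h1]
        have := hsmall t h1 (by omega) hne
        linarith
      · rw [if_neg h1, zero_add]
        apply div_le_div_of_nonneg_left (Nat.cast_nonneg _) (by positivity)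
        exact pow_le_pow_right₀ (by linarith) (by omega)
    have hs : ∑ t ∈ (range (r + 1)).erase cc, (N t : ℝ) / q ^ t ≤
        (2 * k + 1) * (μ / L) + n / q ^ (2 * k + 1) := by
      refine (Finset.sum_le_sum hb).trans ?_
      refine (Finset.sum_le_sum_of_subset_of_nonneg (Finset.erase_subset _ _) ?_).trans ?_
      · intro t _ _
        have : (0 : ℝ) ≤ (N t : ℝ) / q ^ (2 * k + 1) := by positivity
        have h6 : (0 : ℝ) ≤ if t ≤ 2 * k then μ / L else 0 := by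
          split_ifs <;> positivity
        linarith
      · rw [Finset.sum_add_distrib, ← Finset.sum_div, hsumr]
        have := hsumJ (μ / L) (by positivity)
        linarith
    have hfin : (E : ℝ) * ((2 * k + 1) * (μ / L) + n / q ^ (2 * k + 1)) ≤ μ := by
      have h6 : (E : ℝ) * ((2 * k + 1) * (μ / L) + n / q ^ (2 * k + 1)) ≤
          E * ((2 * k + 1) * (μ / L) + 2 * (2 * k + 1) * μ / L) := by
        apply mul_le_mul_of_nonneg_left _ (by linarith)
        linarith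
      refine h6.trans ?_
      have h7 : (E : ℝ) * ((2 * k + 1) * (μ / L) + 2 * (2 * k + 1) * μ / L) =
          3 * ((2 * k + 1) * E) * μ / L := by
        ring
      rw [h7, div_le_iff₀ hL0, ← hLe]
      have h9 : (0 : ℝ) ≤ (2 * k + 1) * E * μ := by positivity
      nlinarith [mul_le_mul_of_nonneg_left h2k h9]
    exact (mul_le_mul_of_nonneg_left hs (by linarith)).trans hfin
  · -- second sum
    have hchoose : ∀ t : ℕ, (t.choose cc : ℝ) ≤ 2 ^ t := by
      intro t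
      exact_mod_cast Nat.choose_le_two_pow t cc
    have hq2 : 2 / q ≤ 1 := by
      rw [div_le_one hq0]; linarith
    have hb : ∀ t ∈ (range (r + 1)).filter (fun t => cc < t),
        (N t : ℝ) * t.choose cc / q ^ t ≤
        (if t ≤ 2 * k then 2 ^ (2 * k) * (μ / L) else 0) +
          (N t : ℝ) * (2 / q) ^ (2 * k + 1) := by
      intro t ht
      obtain ⟨htr, hct⟩ := Finset.mem_filter.1 ht
      rw [Finset.mem_range] at htr
      have hx : (0 : ℝ) ≤ (N t : ℝ) * (2 / q) ^ (2 * k + 1) := by positivity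
      by_cases h1 : t ≤ 2 * k
      · rw [if_pos h1]
        have h3 := hsmall t h1 (by omega) (by omega)
        have h4 : (t.choose cc : ℝ) ≤ 2 ^ (2 * k) :=
          (hchoose t).trans (pow_le_pow_right₀ (by norm_num) h1)
        have h5 : (N t : ℝ) * t.choose cc / q ^ t = t.choose cc * ((N t : ℝ) / q ^ t) := by ring
        rw [h5]
        have h6 : (t.choose cc : ℝ) * ((N t : ℝ) / q ^ t) ≤ 2 ^ (2 * k) * (μ / L) :=
          mul_le_mul h4 h3 (by positivity) (by positivity)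
        linarith
      · rw [if_neg (by omega), zero_add]
        have h5 : (N t : ℝ) * t.choose cc / q ^ t ≤ (N t : ℝ) * 2 ^ t / q ^ t := by
          apply div_le_div_of_nonneg_right _ (by positivity)
          exact mul_le_mul_of_nonneg_left (hchoose t) (Nat.cast_nonneg _)
        refine h5.trans ?_
        rw [mul_div_assoc, ← div_pow]
        apply mul_le_mul_of_nonneg_left _ (Nat.cast_nonneg _)
        exact pow_le_pow_of_le_one (by positivity) hq2 (by omega)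
    have hs : ∑ t ∈ (range (r + 1)).filter (fun t => cc < t),
        (N t : ℝ) * t.choose cc / q ^ t ≤
        (2 * k + 1) * (2 ^ (2 * k) * (μ / L)) + n * (2 / q) ^ (2 * k + 1) := by
      refine (Finset.sum_le_sum hb).trans ?_
      refine (Finset.sum_le_sum_of_subset_of_nonneg (Finset.filter_subset _ _) ?_).trans ?_
      · intro t _ _
        have : (0 : ℝ) ≤ (N t : ℝ) * (2 / q) ^ (2 * k + 1) := by positivity
        have h6 : (0 : ℝ) ≤ if t ≤ 2 * k then 2 ^ (2 * k) * (μ / L) else 0 := by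
          split_ifs <;> positivity
        linarith
      · rw [Finset.sum_add_distrib, ← Finset.sum_mul, hsumr]
        have := hsumJ (2 ^ (2 * k) * (μ / L)) (by positivity)
        linarith
    have hn2 : (n : ℝ) * (2 / q) ^ (2 * k + 1) ≤ 2 ^ (2 * k + 1) * (2 * (2 * k + 1) * μ / L) := by
      rw [div_pow]
      have : (n : ℝ) * (2 ^ (2 * k + 1) / q ^ (2 * k + 1)) =
          2 ^ (2 * k + 1) * (n / q ^ (2 * k + 1)) := by ring
      rw [this]
      exact mul_le_mul_of_nonneg_left hnq (by positivity)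
    have hfin : (E : ℝ) * ((2 * k + 1) * (2 ^ (2 * k) * (μ / L)) +
        2 ^ (2 * k + 1) * (2 * (2 * k + 1) * μ / L)) ≤ μ := by
      have h7 : (E : ℝ) * ((2 * k + 1) * (2 ^ (2 * k) * (μ / L)) +
          2 ^ (2 * k + 1) * (2 * (2 * k + 1) * μ / L)) =
          5 * ((2 * k + 1) * E) * 2 ^ (2 * k) * μ / L := by
        rw [pow_succ]
        ring
      rw [h7, div_le_iff₀ hL0]
      have h9 : (0 : ℝ) ≤ (2 * k + 1) * E * 2 ^ (2 * k) * μ := by positivity
      calc 5 * ((2 * k + 1) * E : ℝ) * 2 ^ (2 * k) * μ =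
            5 * ((2 * k + 1) * E * 2 ^ (2 * k) * μ) := by ring
        _ ≤ 64 * ((2 * k + 1) * E * 2 ^ (2 * k) * μ) := by linarith
        _ = μ * L := by rw [← hLe]; ring
    refine (mul_le_mul_of_nonneg_left (hs.trans ?_) (by linarith)).trans hfin
    linarith
  · push_cast
    rw [← hL]
    refine hnμ.trans ?_
    apply mul_le_mul_of_nonneg_right _ hμpos.le
    apply mul_le_mul_of_nonneg_left hqk (by positivity)

/-- L3: a common scale for two sequences -/
theorem scales2 (k E : ℕ) (hE : 1 ≤ E) : ∃ ℓ H : ℕ, 3 ≤ ℓ ∧ 1 ≤ H ∧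
    ∀ (r n : ℕ) (N N' : ℕ → ℕ), 1 ≤ n →
      ∑ t ∈ range (r + 1), N t = n → ∑ t ∈ range (r + 1), t * N t ≤ k * n →
      ∑ t ∈ range (r + 1), N' t = n → ∑ t ∈ range (r + 1), t * N' t ≤ k * n →
      ∃ i c c' : ℕ, c ≤ 2 * k ∧ c' ≤ 2 * k ∧ Dom E H r n N ((ℓ : ℝ) ^ (2 * i + 1)) c ∧
        Dom E H r n N' ((ℓ : ℝ) ^ (2 * i + 1)) c' := by
  obtain ⟨ℓ, hℓ⟩ : ∃ ℓ : ℕ, ℓ = 2 ^ (2 * k + 6) * ((2 * k + 1) * E) := ⟨_, rfl⟩
  have hℓ3 : 3 ≤ ℓ := by
    have h1 : 2 ^ 6 ≤ 2 ^ (2 * k + 6) := Nat.pow_le_pow_right (by norm_num) (by omega)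
    have h2 : 1 ≤ (2 * k + 1) * E := Nat.one_le_iff_ne_zero.2 (by positivity)
    rw [hℓ]
    calc 3 ≤ 2 ^ 6 * 1 := by norm_num
      _ ≤ 2 ^ (2 * k + 6) * ((2 * k + 1) * E) := Nat.mul_le_mul h1 h2
  refine ⟨ℓ, 2 * (2 * k + 1) * ℓ ^ ((8 * k + 1) * (2 * k)), hℓ3, ?_, ?_⟩
  · exact Nat.one_le_iff_ne_zero.2 (by positivity)
  intro r n N N' hn h1 h2 h1' h2'
  have hL : (2 : ℝ) ≤ (ℓ : ℝ) := by
    have : (3 : ℝ) ≤ (ℓ : ℝ) := by exact_mod_cast hℓ3
    linarith
  obtain ⟨c, hc, hdec⟩ := maxes k r n N hn (ℓ : ℝ) hL h1 h2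
  obtain ⟨c', hc', hdec'⟩ := maxes k r n N' hn (ℓ : ℝ) hL h1' h2'
  obtain ⟨i, hi, hci⟩ := V3_const (4 * k + 1) (fun i => c i + c' i + 1) (fun i => by omega)
    (fun i => by have := (hc i).1; have := (hc' i).1; omega)
    (fun i => by have := hdec i; have := hdec' i; omega)
  have e1 : c (i + 1) = c i := by have := hdec i; have := hdec' i; omega
  have e2 : c' (i + 1) = c' i := by have := hdec i; have := hdec' i; omega
  have f1 := (hc (i + 1)).2.2
  have f2 := (hc' (i + 1)).2.2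
  rw [e1] at f1
  rw [e2] at f2
  exact ⟨i, c i, c' i, (hc i).1, (hc' i).1,
    scale_at k E ℓ i hE hℓ hi r n N hn h1 h2 (c i) (hc i).1 (hc i).2.2 f1,
    scale_at k E ℓ i hE hℓ hi r n N' hn h1' h2' (c' i) (hc' i).1 (hc' i).2.2 f2⟩

end Pool.Agent.K7.H45.LL
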