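import Pool.Agent.K7.H45.LL.Main

/-!
# Rectangles with one foot in each word: the theorem
-/

set_option autoImplicit false

open Finset

namespace Pool.Agent.K7.H45.LL

open Pool.Agent.H554R2.Lin (fin_ineq)

/-- large numbers -/
theorem large2 (C H G : ℕ) (hH : 1 ≤ H) (hG : 1 ≤ G) : ∃ N : ℕ, 0 < N ∧ ∀ m ≥ N, ∀ a : ℕ,
    2 * m ≤ 3 * H * a →
    4 * (2 : ℝ) ^ (m / N) * C * ((m : ℝ) + 1) ^ 5 * (2 : ℝ) ^ ((a : ℝ) / (4 * G)) <
      (2 : ℝ) ^ (a / G) := by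
  have hHR : (1 : ℝ) ≤ H := by exact_mod_cast hH
  have hGR : (1 : ℝ) ≤ G := by exact_mod_cast hG
  set ρ : ℝ := (2 : ℝ) ^ ((1 : ℝ) / (8 * G * H)) with hρ
  have hρ1 : 1 < ρ := Real.one_lt_rpow (by norm_num) (by positivity)
  have ht := tendsto_pow_const_div_const_pow_of_one_lt 5 hρ1
  have ht2 : Filter.Tendsto (fun n : ℕ => (256 * (C : ℝ) + 1) * (((n : ℝ)) ^ 5 / ρ ^ n))
      Filter.atTop (nhds 0) := by
    simpa using ht.const_mul (256 * (C : ℝ) + 1)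
  have hev := (ht2.eventually (gt_mem_nhds (show (0 : ℝ) < 1 by norm_num)))
  obtain ⟨N0, hN0⟩ := Filter.eventually_atTop.1 hev
  have hGH : 1 ≤ G * H := Nat.one_le_iff_ne_zero.2 (by positivity)
  refine ⟨max N0 (12 * (G * H)), by have := le_max_right N0 (12 * (G * H)); omega, ?_⟩
  intro m hm a ha
  set N := max N0 (12 * (G * H)) with hN
  have hN1 : N0 ≤ N := le_max_left _ _
  have hN2 : 12 * (G * H) ≤ N := le_max_right _ _
  have h1 := hN0 m (hN1.trans hm)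
  have hm1 : (1 : ℝ) ≤ m := by
    have : 1 ≤ m := by omega
    exact_mod_cast this
  have hρn : 0 < ρ ^ m := by positivity
  have h2 : (256 * (C : ℝ) + 1) * (m : ℝ) ^ 5 < ρ ^ m := by
    have h3 : (256 * (C : ℝ) + 1) * (((m : ℝ)) ^ 5 / ρ ^ m) * ρ ^ m < 1 * ρ ^ m :=
      mul_lt_mul_of_pos_right h1 hρn
    rwa [mul_assoc, div_mul_cancel₀ _ hρn.ne', one_mul] at h3
  have hC0 : (0 : ℝ) ≤ C := Nat.cast_nonneg _
  have h3 : 8 * (C : ℝ) * ((m : ℝ) + 1) ^ 5 < ρ ^ m := by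
    have h31 : ((m : ℝ) + 1) ^ 5 ≤ (2 * (m : ℝ)) ^ 5 :=
      pow_le_pow_left₀ (by positivity) (by linarith) 5
    have h32 : (2 * (m : ℝ)) ^ 5 = 32 * (m : ℝ) ^ 5 := by ring
    have h33 : 8 * (C : ℝ) * ((m : ℝ) + 1) ^ 5 ≤ 8 * C * (32 * (m : ℝ) ^ 5) := by
      apply mul_le_mul_of_nonneg_left (by rw [← h32]; exact h31) (by positivity)
    have h34 : (0 : ℝ) < (m : ℝ) ^ 5 := by positivity
    nlinarith
  have h4 : ρ ^ m = (2 : ℝ) ^ ((m : ℝ) / (8 * G * H)) := by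
    rw [hρ, ← Real.rpow_natCast, ← Real.rpow_mul (by norm_num)]
    congr 1
    field_simp
  have h5 : (2 : ℝ) ^ (m / N) ≤ (2 : ℝ) ^ ((m : ℝ) / (12 * (G * H))) := by
    rw [← Real.rpow_natCast]
    apply Real.rpow_le_rpow_of_exponent_le (by norm_num)
    have h6 : ((m / N : ℕ) : ℝ) ≤ (m : ℝ) / N := Nat.cast_div_le
    have h7 : (m : ℝ) / N ≤ (m : ℝ) / (12 * (G * H)) := by
      apply div_le_div_of_nonneg_left (by positivity) (by positivity)
      exact_mod_cast hN2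
    exact h6.trans h7
  have h6 : (2 : ℝ) ^ ((a : ℝ) / G - 1) ≤ (2 : ℝ) ^ (a / G) := by
    rw [← Real.rpow_natCast (2 : ℝ) (a / G)]
    apply Real.rpow_le_rpow_of_exponent_le (by norm_num)
    have h7 : a < G * (a / G + 1) := Nat.lt_mul_div_succ a (by omega)
    have h8 : (a : ℝ) < G * (((a / G : ℕ) : ℝ) + 1) := by exact_mod_cast h7
    rw [sub_le_iff_le_add, div_le_iff₀ (by positivity)]
    linarith
  refine lt_of_lt_of_le ?_ h6
  have ha' : (2 : ℝ) * m ≤ 3 * H * a := by exact_mod_cast ha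
  have h9 : (m : ℝ) / (12 * (G * H)) + (m : ℝ) / (8 * G * H) + (a : ℝ) / (4 * G) ≤
      (a : ℝ) / G := by
    have h10 : (m : ℝ) / (12 * (G * H)) ≤ a / (8 * G) := by
      rw [div_le_div_iff₀ (by positivity) (by positivity)]
      nlinarith
    have h11 : (m : ℝ) / (8 * G * H) ≤ 3 * a / (16 * G) := by
      rw [div_le_div_iff₀ (by positivity) (by positivity)]
      nlinarith
    have h12 : (a : ℝ) / (8 * G) + 3 * a / (16 * G) + a / (4 * G) ≤ a / G := by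
      have : (a : ℝ) / (8 * G) + 3 * a / (16 * G) + a / (4 * G) = 9 / 16 * (a / G) := by
        field_simp
        ring
      rw [this]
      have : (0 : ℝ) ≤ a / G := by positivity
      linarith
    linarith
  calc 4 * (2 : ℝ) ^ (m / N) * C * ((m : ℝ) + 1) ^ 5 * (2 : ℝ) ^ ((a : ℝ) / (4 * G))
      = (2 : ℝ) ^ (m / N) * (8 * C * ((m : ℝ) + 1) ^ 5) * (2 : ℝ) ^ ((a : ℝ) / (4 * G)) / 2 := by
        ring
    _ < (2 : ℝ) ^ ((m : ℝ) / (12 * (G * H))) * (2 : ℝ) ^ ((m : ℝ) / (8 * G * H)) *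
        (2 : ℝ) ^ ((a : ℝ) / (4 * G)) / 2 := by
        apply div_lt_div_of_pos_right _ (by norm_num)
        apply mul_lt_mul_of_pos_right _ (by positivity)
        calc (2 : ℝ) ^ (m / N) * (8 * C * ((m : ℝ) + 1) ^ 5)
            ≤ (2 : ℝ) ^ ((m : ℝ) / (12 * (G * H))) * (8 * C * ((m : ℝ) + 1) ^ 5) :=
              mul_le_mul_of_nonneg_right h5 (by positivity)
          _ < (2 : ℝ) ^ ((m : ℝ) / (12 * (G * H))) * (2 : ℝ) ^ ((m : ℝ) / (8 * G * H)) := by
              apply mul_lt_mul_of_pos_left _ (by positivity)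
              rw [← h4]; exact h3
    _ = (2 : ℝ) ^ ((m : ℝ) / (12 * (G * H)) + (m : ℝ) / (8 * G * H) + (a : ℝ) / (4 * G)) / 2 := by
        rw [Real.rpow_add (by norm_num), Real.rpow_add (by norm_num)]
    _ ≤ (2 : ℝ) ^ ((a : ℝ) / G) / 2 := by
        apply div_le_div_of_nonneg_right _ (by norm_num)
        exact Real.rpow_le_rpow_of_exponent_le (by norm_num) h9
    _ = (2 : ℝ) ^ ((a : ℝ) / G - 1) := by
        rw [Real.rpow_sub (by norm_num), Real.rpow_one]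

open Classical in
/-- **Rectangles with one foot in each word.** -/
theorem main2 (k G : ℕ) (hk : 1 ≤ k) (hG : 1 ≤ G) : ∃ Q r N : ℕ, 0 < Q ∧ 0 < r ∧ 0 < N ∧
    ∀ (D : Type) [Fintype D] [Nonempty D] (m : ℕ), N ≤ m → ∀ s, r * s ≤ k * m →
    ∀ (B : Blk D m r s) (V : Finset (Pl m → D)), V ⊆ B.K →
    Fintype.card D ^ (m + m) ≤ 2 ^ (m / N) * V.card →
    ∃ a g : ℕ, m ≤ Q * a ∧ G * g ≤ a ∧ a ≤ m ∧ Nonempty (Rect B.K V (Fintype.card D) a a g) := by
  obtain ⟨E, hE⟩ : ∃ E, E = 1152 * G * (G + 6) := ⟨_, rfl⟩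
  have hE1 : 1 ≤ E := by rw [hE]; exact Nat.one_le_iff_ne_zero.2 (by positivity)
  obtain ⟨H, r, hH, hr, hone⟩ := one_input2 k E hk hE1
  obtain ⟨N, hN, hlarge⟩ := large2 ((2 * k + 1) ^ 2 * 3 ^ r) H G hH hG
  refine ⟨2 * H, r, N, by omega, hr, hN, ?_⟩
  intro D _ _ m hm s hrs B V hVK hV
  obtain ⟨q, hq⟩ : ∃ q, q = Fintype.card D := ⟨_, rfl⟩
  have hqpos : 0 < q := by rw [hq]; exact Fintype.card_pos
  rw [← hq] at hV ⊢
  have hm1 : 1 ≤ m := by omega
  choose! c c' T u v u' v' a hc1 hc2 hu hv hu' hv' ham hma hty using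
    fun x hx => hone D m s hm1 hrs B x hx
  have hVpos : 0 < V.card := by
    rcases Nat.eq_zero_or_pos V.card with h | h
    · rw [h] at hV
      have : 0 < q ^ (m + m) := by positivity
      omega
    · exact h
  set t : Finset (ℕ × ℕ × (Fin r → Fin 3) × ℕ × ℕ × ℕ × ℕ × ℕ) :=
    range (2 * k + 1) ×ˢ range (2 * k + 1) ×ˢ (univ : Finset (Fin r → Fin 3)) ×ˢ
      range (m + 1) ×ˢ range (m + 1) ×ˢ range (m + 1) ×ˢ range (m + 1) ×ˢ range (m + 1) with ht
  have htc : t.card = (2 * k + 1) ^ 2 * 3 ^ r * (m + 1) ^ 5 := by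
    rw [ht]
    simp only [Finset.card_product, Finset.card_range, Finset.card_univ, Fintype.card_fun,
      Fintype.card_fin]
    ring
  have htpos : 0 < t.card := by rw [htc]; positivity
  have hmaps : ∀ x ∈ V, (c x, c' x, T x, u x, v x, u' x, v' x, a x) ∈ t := by
    intro x hx
    have hxK := hVK hx
    rw [ht]
    simp only [Finset.mem_product, Finset.mem_range, Finset.mem_univ, true_and]
    have := hc1 x hxK
    have := hc2 x hxK
    have := hu x hxK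
    have := hv x hxK
    have := hu' x hxK
    have := hv' x hxK
    have := ham x hxK
    refine ⟨?_, ?_, ?_, ?_, ?_, ?_, ?_⟩ <;> omega
  have htR : (0 : ℝ) < t.card := by exact_mod_cast htpos
  obtain ⟨⟨c0, c0', T0, u0, v0, u0', v0', a0⟩, -, hfib⟩ :=
    Finset.exists_le_card_fiber_of_nsmul_le_card_of_maps_to
    (s := V) (t := t) (f := fun x => (c x, c' x, T x, u x, v x, u' x, v' x, a x))
    (b := (V.card : ℝ) / t.card) hmaps (Finset.card_pos.1 htpos) (by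
      rw [nsmul_eq_mul, mul_div_cancel₀ _ htR.ne'])
  set K' := V.filter (fun x => (c x, c' x, T x, u x, v x, u' x, v' x, a x) =
    (c0, c0', T0, u0, v0, u0', v0', a0)) with hK'
  have hK'R : (V.card : ℝ) ≤ t.card * K'.card := by
    rw [div_le_iff₀ htR] at hfib
    linarith
  have hK'pos : 0 < K'.card := by
    rcases Nat.eq_zero_or_pos K'.card with h | h
    · rw [h, Nat.cast_zero, mul_zero] at hK'R
      have : (0 : ℝ) < V.card := by exact_mod_cast hVpos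
      linarith
    · exact h
  obtain ⟨x0, hx0⟩ := Finset.card_pos.1 hK'pos
  have hmem : ∀ x ∈ K', x ∈ V ∧ c x = c0 ∧ c' x = c0' ∧ T x = T0 ∧ u x = u0 ∧ v x = v0 ∧
      u' x = u0' ∧ v' x = v0' ∧ a x = a0 := by
    intro x hx
    rw [hK', Finset.mem_filter] at hx
    simp only [Prod.mk.injEq] at hx
    exact hx
  obtain ⟨hx0V, -, -, -, -, -, -, -, hxa⟩ := hmem x0 hx0
  have hma' := hma x0 (hVK hx0V)
  have ham' := ham x0 (hVK hx0V)
  rw [hxa] at hma' ham'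
  have hty' : ∀ x ∈ K', Typ B T0 (fun e => if e then c0' else c0)
      (fun e => if e then Ivl m u0' v0' else Ivl m u0 v0) a0 a0 (72 * a0 / E) x := by
    intro x hx
    obtain ⟨h1, h2, h3, h4, h5, h6, h7, h8, h9⟩ := hmem x hx
    have := hty x (hVK h1)
    rw [h2, h3, h4, h5, h6, h7, h8, h9] at this
    exact this
  set d := 72 * a0 / E with hd
  have hda : 1152 * G * (G + 6) * d ≤ 72 * a0 := by
    rw [← hE, hd]
    exact Nat.mul_div_le _ _
  have hQ : m ≤ 2 * H * a0 := by nlinarith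
  refine ⟨a0, a0 / G, hQ, Nat.mul_div_le _ _, ham', ?_⟩
  rw [hq]
  refine rect_of B T0 _ _ K' V ((Finset.filter_subset _ _).trans hVK)
    (Finset.filter_subset _ _) hty' ?_
  rw [← hq]
  set M := ∑ i ∈ range (d + 1), (a0 + d).choose i with hM
  have hb1 : (M : ℝ) ≤ (2 : ℝ) ^ ((a0 : ℝ) / (8 * G)) := bin_le' G a0 d hG hda
  have hGR : (1 : ℝ) ≤ G := by exact_mod_cast hG
  have hb12 : (M : ℝ) * M ≤ (2 : ℝ) ^ ((a0 : ℝ) / (4 * G)) := by
    calc (M : ℝ) * M ≤ (2 : ℝ) ^ ((a0 : ℝ) / (8 * G)) * (2 : ℝ) ^ ((a0 : ℝ) / (8 * G)) :=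
          mul_le_mul hb1 hb1 (by positivity) (by positivity)
      _ = (2 : ℝ) ^ ((a0 : ℝ) / (4 * G)) := by
          rw [← Real.rpow_add (by norm_num)]
          congr 1
          field_simp
          ring
  have hl := hlarge m hm a0 hma'
  have hKR : (q : ℝ) ^ (m + m) ≤ 2 ^ (m / N) * V.card := by exact_mod_cast hV
  have hK'0 : (0 : ℝ) < K'.card := by exact_mod_cast hK'pos
  have htcR : (t.card : ℝ) = ((2 * k + 1) ^ 2 * 3 ^ r : ℕ) * ((m : ℝ) + 1) ^ 5 := by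
    rw [htc]; push_cast; ring
  have hgoal : 2 * ((q : ℝ) ^ (m + m) * ((M : ℝ) * (M : ℝ))) < (K'.card : ℝ) * 2 ^ (a0 / G) :=
    fin_ineq _ _ _ _ _ _ _ _ _ _ hKR hK'R htcR hb12 hl hK'0 (pow_nonneg (by norm_num) _)
      (Nat.cast_nonneg _) (pow_nonneg (by positivity) _) (Real.rpow_nonneg (by norm_num) _)
      (pow_nonneg (Nat.cast_nonneg _) _)
  exact_mod_cast hgoal

end Pool.Agent.K7.H45.LL
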